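import Mathlib

/-!
# Anticomponents and derivations
-/

namespace TH691.VC

variable {ι : Type} (adj : ι → ι → Prop)

/-- common neighbourhood -/
def N (T : Finset ι) : Set ι := {w | ∀ t ∈ T, adj t w}

/-- the component of `x` in the complement graph of the subgraph induced on `S` -/
def AC (S : Set ι) (x : ι) : Set ι := {y | Relation.ReflTransGen (fun a b => b ∈ S ∧ ¬ adj a b) x y}

variable {adj}

theorem AC_self (S : Set ι) (x : ι) : x ∈ AC adj S x := Relation.ReflTransGen.refl

theorem AC_sub {S : Set ι} {x : ι} (hx : x ∈ S) : AC adj S x ⊆ S := by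
  intro y hy
  induction hy with
  | refl => exact hx
  | tail _ h _ => exact h.1

theorem AC_sub_of_sub {S S' : Set ι} {x z : ι} (hz : z ∈ AC adj S x) (h : AC adj S' z ⊆ S) :
    AC adj S' z ⊆ AC adj S x := by
  intro y hy
  induction hy with
  | refl => exact hz
  | tail h1 h2 ih =>
    exact Relation.ReflTransGen.tail ih ⟨h (Relation.ReflTransGen.tail h1 h2), h2.2⟩

/-- one-sidedness -/
theorem AC_sub_side {S A B : Set ι} {x : ι} (hx : x ∈ A) (hS : ∀ y ∈ S, y ∈ A ∨ y ∈ B)
    (hAB : ∀ a ∈ A, a ∈ S → ∀ b ∈ B, b ∈ S → a ≠ b → adj a b) (hxS : x ∈ S) :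
    AC adj S x ⊆ A := by
  intro y hy
  have : y ∈ A ∧ y ∈ S := by
    induction hy with
    | refl => exact ⟨hx, hxS⟩
    | @tail b c h1 h2 ih =>
      refine ⟨?_, h2.1⟩
      by_contra hc
      rcases hS c h2.1 with h3 | h3
      · exact hc h3
      · by_cases hbc : b = c
        · rw [hbc] at ih; exact hc ih.1
        · exact h2.2 (hAB b ih.1 ih.2 c h3 h2.1 hbc)
  exact this.1

theorem AC_single {S : Set ι} {x : ι} (h : ∀ y ∈ S, y ≠ x → adj x y) : AC adj S x = {x} := by
  ext y
  constructor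
  · intro hy
    induction hy with
    | refl => rfl
    | @tail b c h1 h2 ih =>
      rw [Set.mem_singleton_iff] at ih ⊢
      by_contra hc
      rw [ih] at h2
      exact h2.2 (h c h2.1 hc)
  · rintro rfl
    exact AC_self _ _

theorem AC_symm (hs : ∀ a b, adj a b → adj b a) {S : Set ι} {x y : ι} (hx : x ∈ S)
    (hy : y ∈ AC adj S x) : x ∈ AC adj S y := by
  induction hy with
  | refl => exact AC_self _ _
  | @tail b c h1 h2 ih =>
    have hb : b ∈ S := AC_sub hx h1
    exact Relation.ReflTransGen.head ⟨hb, fun h => h2.2 (hs _ _ h)⟩ ih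

theorem AC_eq (hs : ∀ a b, adj a b → adj b a) {S : Set ι} {x y : ι} (hx : x ∈ S)
    (hy : y ∈ AC adj S x) : AC adj S y = AC adj S x := by
  apply Set.Subset.antisymm
  · intro z hz
    exact Relation.ReflTransGen.trans hy hz
  · intro z hz
    exact Relation.ReflTransGen.trans (AC_symm hs hx hy) hz

variable (adj)

/-- The part of the clique `K` in `C` is found by the algorithm in `r` rounds. -/
def Der (K : Finset ι) : ℕ → Set ι → Prop
  | 0, C => ∀ x ∈ K, x ∉ C
  | r + 1, C => ∃ T : Finset ι, T.card ≤ 8 ∧ (∀ s ∈ T, ∀ t ∈ T, s ≠ t → adj s t) ∧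
      ∀ x ∈ K, x ∈ C → x ∈ T ∨
        (x ∈ N adj T ∧ AC adj (N adj T) x ⊆ C ∧ Der K r (AC adj (N adj T) x))

variable {adj}

theorem Der.succ {K : Finset ι} : ∀ {r : ℕ} {C : Set ι}, Der adj K r C → Der adj K (r + 1) C
  | 0, C, h => ⟨∅, by simp, by simp, fun x hx hxC => absurd hxC (h x hx)⟩
  | r + 1, C, ⟨T, h1, h2, h3⟩ => ⟨T, h1, h2, fun x hx hxC => by
      rcases h3 x hx hxC with h | ⟨g1, g2, g3⟩
      · exact Or.inl h
      · exact Or.inr ⟨g1, g2, g3.succ⟩⟩

theorem Der.mono {K : Finset ι} {r r' : ℕ} {C : Set ι} (h : Der adj K r C) (hr : r ≤ r') :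
    Der adj K r' C := by
  induction hr with
  | refl => exact h
  | step _ ih => exact ih.succ

theorem Der.single {K : Finset ι} (x : ι) (r : ℕ) : Der adj K (r + 1) {x} :=
  ⟨{x}, by simp, by simp, fun y _ hyC => Or.inl (by simpa using hyC)⟩

theorem Der.of_disjoint {K : Finset ι} {C : Set ι} (h : ∀ x ∈ K, x ∉ C) (r : ℕ) :
    Der adj K r C := Der.mono (r := 0) h (Nat.zero_le r)

end TH691.VC
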