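import Pool.Agent.TH691.VC.Comp
import Pool.Agent.TH691.VC.Comb

/-!
# The algorithm and its correctness
-/

namespace TH691.VC

/-- entry of the adjacency matrix -/
def adjB (M : List (List Bool)) (i j : ℕ) : Bool := (M.getD i []).getD j false

open Classical in
/-- the common neighbours -/
noncomputable def nbL (M : List (List Bool)) (T : List ℕ) : List ℕ :=
  (List.range M.length).filter (fun v => decide (∀ t ∈ T, adjB M t v = true))

/-- the anticomponent of `x` in the common neighbourhood of `T` -/
noncomputable def cmp (M : List (List Bool)) (T : List ℕ) (x : ℕ) : List ℕ :=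
  comp (nbL M T) (fun u w => ¬ adjB M u w = true) x

/-- all anticomponents of the common neighbourhood of `T` -/
noncomputable def comps (M : List (List Bool)) (T : List ℕ) : List (List ℕ) :=
  (nbL M T).map (fun x => cmp M T x)

/-- all sequences of length at most `k` -/
def seqs (V : List ℕ) : ℕ → List (List ℕ)
  | 0 => [[]]
  | k + 1 => seqs V k ++ V.flatMap (fun v => (seqs V k).map (fun l => v :: l))

/-- the list is a clique -/
def ClqL (M : List (List Bool)) (T : List ℕ) : Prop :=
  ∀ s ∈ T, ∀ t ∈ T, s ≠ t → adjB M s t = true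

open Classical in
/-- all cliques with at most eight vertices -/
noncomputable def tups (M : List (List Bool)) : List (List ℕ) :=
  (seqs (List.range M.length) 8).filter (fun T => decide (ClqL M T))

/-- the sets for which cliques are computed -/
noncomputable def keys (M : List (List Bool)) : List (List ℕ) :=
  (tups M).flatMap (fun T => comps M T)

open Classical in
/-- the clique in `C` found with the help of the clique `T` -/
noncomputable def cand (M : List (List Bool)) (tab : List (List ℕ × List ℕ)) (C T : List ℕ) :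
    List ℕ :=
  (List.range M.length).filter (fun v => decide ((v ∈ T ∧ v ∈ C) ∨
    ∃ D ∈ comps M T, (∀ y ∈ D, y ∈ C) ∧ ∃ e ∈ tab, e.1 = D ∧ v ∈ e.2))

/-- the longer one of two lists -/
def longer (a b : List ℕ) : List ℕ := if a.length < b.length then b else a

/-- the best clique found in `C` -/
noncomputable def best (M : List (List Bool)) (tab : List (List ℕ × List ℕ)) (C : List ℕ) :
    List ℕ :=
  ((tups M).map (fun T => cand M tab C T)).foldl longer []

/-- one round -/
noncomputable def stp (M : List (List Bool)) (tab : List (List ℕ × List ℕ)) :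
    List (List ℕ × List ℕ) := tab.map (fun e => (e.1, best M tab e.1))

/-- the initial table -/
noncomputable def tab0 (M : List (List Bool)) : List (List ℕ × List ℕ) :=
  (keys M).map (fun C => (C, []))

/-- the table after `r` rounds -/
noncomputable def tabr (M : List (List Bool)) (r : ℕ) : List (List ℕ × List ℕ) :=
  (stp M)^[r] (tab0 M)

/-- the algorithm -/
noncomputable def alg (M : List (List Bool)) : List ℕ :=
  best M (tabr M (M.length + 1)) (List.range M.length)

/-- the clique computed for `C` after `r` rounds -/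
noncomputable def val (M : List (List Bool)) : ℕ → List ℕ → List ℕ
  | 0, _ => []
  | r + 1, C => best M (tabr M r) C

theorem tabr_eq (M : List (List Bool)) (r : ℕ) :
    tabr M r = (keys M).map (fun C => (C, val M r C)) := by
  cases r with
  | zero => rfl
  | succ r =>
    induction r with
    | zero =>
      change (tab0 M).map _ = _
      unfold tab0
      rw [List.map_map]
      rfl
    | succ r ih =>
      have h1 : tabr M (r + 1 + 1) = (tabr M (r + 1)).map
          (fun e => (e.1, best M (tabr M (r + 1)) e.1)) := by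
        unfold tabr
        rw [Function.iterate_succ_apply']
        rfl
      rw [h1]
      conv_lhs => rw [ih]
      rw [List.map_map, ← ih]
      rfl

theorem mem_seqs {V : List ℕ} : ∀ {k : ℕ} {l : List ℕ},
    l ∈ seqs V k ↔ l.length ≤ k ∧ ∀ x ∈ l, x ∈ V
  | 0, l => by
    simp only [seqs, List.mem_singleton]
    constructor
    · rintro rfl; simp
    · rintro ⟨h, -⟩
      exact List.length_eq_zero_iff.1 (by omega)
  | k + 1, l => by
    simp only [seqs, List.mem_append, List.mem_flatMap, List.mem_map]
    rw [mem_seqs (k := k)]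
    constructor
    · rintro (⟨h1, h2⟩ | ⟨v, hv, l', hl', rfl⟩)
      · exact ⟨by omega, h2⟩
      · rw [mem_seqs (k := k)] at hl'
        refine ⟨by simpa using hl'.1, ?_⟩
        intro x hx
        rcases List.mem_cons.1 hx with rfl | hx
        · exact hv
        · exact hl'.2 x hx
    · rintro ⟨h1, h2⟩
      cases l with
      | nil => left; simp
      | cons v l =>
        right
        refine ⟨v, h2 v (by simp), l, ?_, rfl⟩
        rw [mem_seqs (k := k)]
        exact ⟨by simpa using h1, fun x hx => h2 x (List.mem_cons_of_mem _ hx)⟩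

theorem mem_tups {M : List (List Bool)} {T : List ℕ} :
    T ∈ tups M ↔ (T.length ≤ 8 ∧ ∀ x ∈ T, x < M.length) ∧ ClqL M T := by
  classical
  unfold tups
  rw [List.mem_filter, mem_seqs, decide_eq_true_eq]
  simp only [List.mem_range]

theorem mem_nbL {M : List (List Bool)} {T : List ℕ} {v : ℕ} :
    v ∈ nbL M T ↔ v < M.length ∧ ∀ t ∈ T, adjB M t v = true := by
  unfold nbL
  rw [List.mem_filter, decide_eq_true_eq, List.mem_range]

theorem mem_comps {M : List (List Bool)} {T D : List ℕ} :
    D ∈ comps M T ↔ ∃ x ∈ nbL M T, cmp M T x = D := by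
  unfold comps
  rw [List.mem_map]

theorem mem_keys {M : List (List Bool)} {D : List ℕ} :
    D ∈ keys M ↔ ∃ T ∈ tups M, D ∈ comps M T := by
  unfold keys
  rw [List.mem_flatMap]

theorem mem_cand {M : List (List Bool)} {r : ℕ} {C T : List ℕ} {v : ℕ} :
    v ∈ cand M (tabr M r) C T ↔ v < M.length ∧ ((v ∈ T ∧ v ∈ C) ∨
      ∃ D ∈ comps M T, (∀ y ∈ D, y ∈ C) ∧ D ∈ keys M ∧ v ∈ val M r D) := by
  unfold cand
  rw [List.mem_filter, decide_eq_true_eq, List.mem_range, tabr_eq]
  constructor
  · rintro ⟨h1, h2 | ⟨D, hD, hDC, e, he, rfl, hv⟩⟩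
    · exact ⟨h1, Or.inl h2⟩
    · obtain ⟨D', hD', rfl⟩ := List.mem_map.1 he
      exact ⟨h1, Or.inr ⟨_, hD, hDC, hD', hv⟩⟩
  · rintro ⟨h1, h2 | ⟨D, hD, hDC, hk, hv⟩⟩
    · exact ⟨h1, Or.inl h2⟩
    · exact ⟨h1, Or.inr ⟨D, hD, hDC, (D, val M r D), List.mem_map.2 ⟨D, hk, rfl⟩, rfl, hv⟩⟩

theorem foldl_longer (l : List (List ℕ)) : ∀ s : List ℕ,
    (l.foldl longer s = s ∨ l.foldl longer s ∈ l) ∧ s.length ≤ (l.foldl longer s).length ∧
      ∀ x ∈ l, x.length ≤ (l.foldl longer s).length := by
  induction l with
  | nil => intro s; simp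
  | cons a l ih =>
    intro s
    rw [List.foldl_cons]
    obtain ⟨h1, h2, h3⟩ := ih (longer s a)
    have h4 : (longer s a = s ∨ longer s a = a) ∧ s.length ≤ (longer s a).length ∧
        a.length ≤ (longer s a).length := by
      unfold longer
      split_ifs with h
      · exact ⟨Or.inr rfl, h.le, le_rfl⟩
      · exact ⟨Or.inl rfl, le_rfl, by omega⟩
    refine ⟨?_, h4.2.1.trans h2, ?_⟩
    · rcases h1 with h1 | h1
      · rcases h4.1 with h5 | h5
        · left; rw [h1]; exact h5
        · right; rw [h1, h5]; simp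
      · right; exact List.mem_cons_of_mem _ h1
    · intro x hx
      rcases List.mem_cons.1 hx with rfl | hx
      · exact h4.2.2.trans h2
      · exact h3 x hx

theorem best_cases (M : List (List Bool)) (tab : List (List ℕ × List ℕ)) (C : List ℕ) :
    best M tab C = [] ∨ ∃ T ∈ tups M, best M tab C = cand M tab C T := by
  rcases (foldl_longer ((tups M).map (fun T => cand M tab C T)) []).1 with h | h
  · exact Or.inl h
  · obtain ⟨T, hT, h1⟩ := List.mem_map.1 h
    exact Or.inr ⟨T, hT, h1.symm⟩

theorem best_ge {M : List (List Bool)} {tab : List (List ℕ × List ℕ)} {C T : List ℕ}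
    (hT : T ∈ tups M) : (cand M tab C T).length ≤ (best M tab C).length :=
  (foldl_longer ((tups M).map (fun T => cand M tab C T)) []).2.2 _
    (List.mem_map.2 ⟨T, hT, rfl⟩)

theorem best_sub (M : List (List Bool)) (tab : List (List ℕ × List ℕ)) (C : List ℕ) :
    (best M tab C).Sublist (List.range M.length) := by
  rcases best_cases M tab C with h | ⟨T, -, h⟩
  · rw [h]; exact List.nil_sublist _
  · rw [h]; exact List.filter_sublist

theorem val_sub (M : List (List Bool)) (r : ℕ) (C : List ℕ) :
    (val M r C).Sublist (List.range M.length) := by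
  cases r with
  | zero => exact List.nil_sublist _
  | succ r => exact best_sub _ _ _

theorem val_nodup (M : List (List Bool)) (r : ℕ) (C : List ℕ) : (val M r C).Nodup :=
  List.nodup_range.sublist (val_sub M r C)

theorem val_subC (M : List (List Bool)) : ∀ (r : ℕ) (C : List ℕ), ∀ v ∈ val M r C, v ∈ C
  | 0, C, v, hv => by simp [val] at hv
  | r + 1, C, v, hv => by
    change v ∈ best M (tabr M r) C at hv
    rcases best_cases M (tabr M r) C with h | ⟨T, -, h⟩
    · rw [h] at hv; simp at hv
    · rw [h, mem_cand] at hv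
      rcases hv.2 with h1 | ⟨D, -, hDC, -, hvD⟩
      · exact h1.2
      · exact hDC v (val_subC M r D v hvD)

/-- the matrix represents the graph -/
structure Rep {n : ℕ} (G : SimpleGraph (Fin n)) (M : List (List Bool)) : Prop where
  len : M.length = n
  adj : ∀ i j : Fin n, adjB M i j = true ↔ G.Adj i j

section
variable {n : ℕ} {G : SimpleGraph (Fin n)} {M : List (List Bool)} (hM : Rep G M)
include hM

theorem Rep.symm {u v : ℕ} (hu : u < M.length) (hv : v < M.length) (h : adjB M u v = true) :
    adjB M v u = true := by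
  rw [hM.len] at hu hv
  have := (hM.adj ⟨u, hu⟩ ⟨v, hv⟩).1 h
  exact (hM.adj ⟨v, hv⟩ ⟨u, hu⟩).2 this.symm

theorem Rep.irr {u : ℕ} (hu : u < M.length) : ¬ adjB M u u = true := by
  rw [hM.len] at hu
  intro h
  have := (hM.adj ⟨u, hu⟩ ⟨u, hu⟩).1 h
  exact G.loopless.irrefl _ this

omit hM in
theorem cmp_sub (M : List (List Bool)) (T : List ℕ) (x : ℕ) : (cmp M T x) ⊆ nbL M T :=
  (comp_sub x).subset

theorem Rep.cmp_closed {T : List ℕ} {x y z : ℕ} (hy : y ∈ cmp M T x) (hz : z ∈ nbL M T)
    (h : ¬ adjB M y z = true) : z ∈ cmp M T x := comp_closed hy hz h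

/-- the relation restricted to the common neighbourhood is symmetric; anticomponents are equal or
completely adjacent -/
theorem Rep.cmp_eq {T : List ℕ} {x y : ℕ} (hx : x ∈ nbL M T) (hy : y ∈ cmp M T x) :
    cmp M T y = cmp M T x := by
  -- use a symmetric version of the relation
  have key : ∀ z, cmp M T z = comp (nbL M T)
      (fun u w => (u < M.length ∧ w < M.length) ∧ ¬ adjB M u w = true) z := by
    intro z
    unfold cmp comp
    have : ∀ k, (grow (nbL M T) (fun u w => ¬ adjB M u w = true))^[k] (strt (nbL M T) z) =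
        (grow (nbL M T) (fun u w => (u < M.length ∧ w < M.length) ∧
          ¬ adjB M u w = true))^[k] (strt (nbL M T) z) := by
      intro k
      induction k with
      | zero => rfl
      | succ k ih =>
        rw [Function.iterate_succ_apply', Function.iterate_succ_apply', ← ih]
        have hsub : ∀ w ∈ (grow (nbL M T) (fun u w => ¬ adjB M u w = true))^[k]
            (strt (nbL M T) z), w ∈ nbL M T := fun w hw => (stage_sub z k).subset hw
        unfold grow at hsub ⊢
        refine List.filter_congr fun u hu => ?_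
        rw [decide_eq_decide]
        have hu' := (mem_nbL.1 hu).1
        constructor
        · rintro (h | ⟨w, hw, hwu⟩)
          · exact Or.inl h
          · exact Or.inr ⟨w, hw, ⟨(mem_nbL.1 (hsub w hw)).1, hu'⟩, hwu⟩
        · rintro (h | ⟨w, hw, hwu⟩)
          · exact Or.inl h
          · exact Or.inr ⟨w, hw, hwu.2⟩
    exact this _
  rw [key, key] at *
  refine comp_eq ?_ hx hy
  rintro u v ⟨⟨h1, h2⟩, h3⟩
  exact ⟨⟨h2, h1⟩, fun h => h3 (hM.symm h2 h1 h)⟩

theorem Rep.comps_adj {T D D' : List ℕ} (hD : D ∈ comps M T) (hD' : D' ∈ comps M T)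
    (hne : D ≠ D') {v w : ℕ} (hv : v ∈ D) (hw : w ∈ D') : adjB M v w = true := by
  obtain ⟨x, hx, rfl⟩ := mem_comps.1 hD
  obtain ⟨y, hy, rfl⟩ := mem_comps.1 hD'
  by_contra h
  apply hne
  have h1 := hM.cmp_closed hv (cmp_sub M T y hw) h
  rw [← hM.cmp_eq hx h1, hM.cmp_eq hy hw]

/-- soundness -/
theorem Rep.val_clq (r : ℕ) : ∀ (C : List ℕ), ClqL M (val M r C) := by
  induction r with
  | zero => intro C s hs; simp [val] at hs
  | succ r ih =>
    intro C s hs t ht hst
    change s ∈ best M (tabr M r) C at hs
    change t ∈ best M (tabr M r) C at ht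
    rcases best_cases M (tabr M r) C with h | ⟨T, hT, h⟩
    · rw [h] at hs; simp at hs
    · rw [h, mem_cand] at hs ht
      have hTc := (mem_tups.1 hT).2
      have hN : ∀ D ∈ comps M T, ∀ v ∈ val M r D, v ∈ nbL M T := by
        intro D hD v hv
        obtain ⟨x, hx, rfl⟩ := mem_comps.1 hD
        exact cmp_sub M T x (val_subC M r _ v hv)
      rcases hs.2 with h1 | ⟨D, hD, -, -, hvD⟩
      · rcases ht.2 with h2 | ⟨D', hD', -, -, hwD⟩
        · exact hTc s h1.1 t h2.1 hst
        · exact (mem_nbL.1 (hN D' hD' t hwD)).2 s h1.1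
      · rcases ht.2 with h2 | ⟨D', hD', -, -, hwD⟩
        · exact hM.symm ht.1 hs.1 ((mem_nbL.1 (hN D hD s hvD)).2 t h2.1)
        · by_cases hDD : D = D'
          · subst hDD
            exact ih D s hvD t hwD hst
          · exact hM.comps_adj hD hD' hDD (val_subC M r _ _ hvD) (val_subC M r _ _ hwD)

theorem Rep.mem_nbL_iff {T : List (Fin n)} {y : Fin n} :
    (y : ℕ) ∈ nbL M (List.map (fun t : Fin n => (t : ℕ)) T) ↔ y ∈ N G.Adj T.toFinset := by
  rw [mem_nbL]
  constructor
  · rintro ⟨-, h⟩ t ht
    rw [← hM.adj]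
    exact h _ (List.mem_map.2 ⟨t, List.mem_toFinset.1 ht, rfl⟩)
  · intro h
    refine ⟨by rw [hM.len]; exact y.2, ?_⟩
    intro t ht
    obtain ⟨t', ht', rfl⟩ := List.mem_map.1 ht
    rw [hM.adj]
    exact h t' (List.mem_toFinset.2 ht')

theorem Rep.mem_cmp_iff {T : List (Fin n)} {x y : Fin n} (hx : x ∈ N G.Adj T.toFinset) :
    (y : ℕ) ∈ cmp M (List.map (fun t : Fin n => (t : ℕ)) T) x ↔ y ∈ AC G.Adj (N G.Adj T.toFinset) x := by
  constructor
  · intro hy
    have key : ∀ k, ∀ z : Fin n, (z : ℕ) ∈ (grow (nbL M (List.map (fun t : Fin n => (t : ℕ)) T))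
        (fun u w => ¬ adjB M u w = true))^[k] (strt (nbL M (List.map (fun t : Fin n => (t : ℕ)) T)) x) →
        z ∈ AC G.Adj (N G.Adj T.toFinset) x := by
      intro k
      induction k with
      | zero =>
        intro z hz
        rw [Function.iterate_zero, id, mem_strt] at hz
        have : z = x := Fin.ext hz.2
        rw [this]
        exact AC_self _ _
      | succ k ih =>
        intro z hz
        rw [Function.iterate_succ_apply', mem_grow] at hz
        obtain ⟨hzN, h | ⟨w, hw, hwz⟩⟩ := hz
        · exact ih z h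
        · have hwn := (mem_nbL.1 ((stage_sub (x : ℕ) k).subset hw)).1
          rw [hM.len] at hwn
          have h1 := ih ⟨w, hwn⟩ hw
          exact Relation.ReflTransGen.tail h1 ⟨hM.mem_nbL_iff.1 hzN, fun h => hwz
            ((hM.adj ⟨w, hwn⟩ z).2 h)⟩
    exact key _ y hy
  · intro hy
    induction hy with
    | refl => exact comp_self (hM.mem_nbL_iff.2 hx)
    | tail _ h ih =>
      exact hM.cmp_closed ih (hM.mem_nbL_iff.2 h.1) (fun h' => h.2 ((hM.adj _ _).1 h'))

end

end TH691.VC
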