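import Pool.Agent.TH691.VC.Geo

/-!
# The vertices of a convex polygon in cyclic order
-/

namespace TH691.VC

variable {ι : Type} [DecidableEq ι]

/-- points in strictly convex position can be ordered cyclically -/
theorem exists_chain (p : ι → Pt) (hinj : Function.Injective p) (E : Finset ι) (h3 : 3 ≤ E.card)
    (hext : ∀ e ∈ E, p e ∉ convexHull ℝ (p '' ((E.erase e : Finset ι) : Set ι))) :
    ∃ (m : ℕ) (e : ℕ → ι), 1 ≤ m ∧ E.card = m + 2 ∧ (∀ i, i ≤ m + 1 → e i ∈ E) ∧
      (∀ x ∈ E, ∃ i, i ≤ m + 1 ∧ e i = x) ∧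
      ∀ i j l, i < j → j < l → l ≤ m + 1 → 0 < ori (p (e i)) (p (e j)) (p (e l)) := by
  obtain ⟨c, hcE, hcmax⟩ := Finset.exists_max_image E (fun x => (p x).1 ^ 2 + (p x).2 ^ 2)
    (Finset.card_pos.1 (by omega))
  set L : ι → ℝ := fun x => (p c).1 * ((p c).1 - (p x).1) + (p c).2 * ((p c).2 - (p x).2) with hL
  set R : ι → ℝ := fun x => (p c).1 * ((p c).2 - (p x).2) - (p c).2 * ((p c).1 - (p x).1) with hR
  have hLpos : ∀ x ∈ E, x ≠ c → 0 < L x := by
    intro x hx hxc
    have h1 : (p x).1 ^ 2 + (p x).2 ^ 2 ≤ (p c).1 ^ 2 + (p c).2 ^ 2 := hcmax x hx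
    have h2 : 0 < ((p c).1 - (p x).1) ^ 2 + ((p c).2 - (p x).2) ^ 2 := by
      by_contra hlt
      push Not at hlt
      have h4 := sq_nonneg ((p c).1 - (p x).1)
      have h5 := sq_nonneg ((p c).2 - (p x).2)
      have h6 : (p c).1 - (p x).1 = 0 := pow_eq_zero_iff (two_ne_zero) |>.1 (by linarith)
      have h7 : (p c).2 - (p x).2 = 0 := pow_eq_zero_iff (two_ne_zero) |>.1 (by linarith)
      apply hxc
      apply hinj
      exact Prod.ext (by linarith) (by linarith)
    simp only [hL]
    nlinarith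
  set κ : ι → ℝ := fun x => R x / L x with hκ
  have hnorm : 0 < (p c).1 ^ 2 + (p c).2 ^ 2 := by
    by_contra hlt
    push Not at hlt
    have h4 := sq_nonneg (p c).1
    have h5 := sq_nonneg (p c).2
    have h6 : (p c).1 = 0 := pow_eq_zero_iff (two_ne_zero) |>.1 (by linarith)
    have h7 : (p c).2 = 0 := pow_eq_zero_iff (two_ne_zero) |>.1 (by linarith)
    obtain ⟨x, hx, hxc⟩ := Finset.exists_mem_ne (by omega : 1 < E.card) c
    have := hLpos x hx hxc
    simp only [hL] at this
    rw [h6, h7] at this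
    simp at this
  have hid : ∀ x y, R y * L x - R x * L y = ((p c).1 ^ 2 + (p c).2 ^ 2) *
      ori (p c) (p x) (p y) := by
    intro x y
    simp only [hL, hR]
    unfold ori
    ring
  have hlt : ∀ x ∈ E, x ≠ c → ∀ y ∈ E, y ≠ c → κ x < κ y → 0 < ori (p c) (p x) (p y) := by
    intro x hx hxc y hy hyc h
    have h1 := hLpos x hx hxc
    have h2 := hLpos y hy hyc
    simp only [hκ] at h
    rw [div_lt_div_iff₀ h1 h2] at h
    have h4 := hid x y
    have h5 : 0 < ((p c).1 ^ 2 + (p c).2 ^ 2) * ori (p c) (p x) (p y) := by rw [← h4]; linarith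
    exact (mul_pos_iff_of_pos_left hnorm).1 h5
  have hκinj : ∀ x ∈ E, x ≠ c → ∀ y ∈ E, y ≠ c → κ x = κ y → x = y := by
    intro x hx hxc y hy hyc h
    have h1 := hLpos x hx hxc
    have h2 := hLpos y hy hyc
    simp only [hκ] at h
    rw [div_eq_div_iff h1.ne' h2.ne'] at h
    have h4 := hid x y
    have h5 : ori (p c) (p x) (p y) = 0 := by
      have : ((p c).1 ^ 2 + (p c).2 ^ 2) * ori (p c) (p x) (p y) = 0 := by rw [← h4]; linarith
      exact (mul_eq_zero.1 this).resolve_left hnorm.ne'
    have hpc : p c ≠ p x := fun h => hxc (hinj h).symm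
    obtain ⟨s, hs⟩ := on_line hpc h5
    have hLs : L y = s * L x := by
      simp only [hL]
      rw [hs]
      simp only [Prod.fst_add, Prod.snd_add, Prod.smul_fst, Prod.smul_snd, Prod.fst_sub,
        Prod.snd_sub, smul_eq_mul]
      ring
    have hs0 : 0 < s := by
      rw [hLs] at h2
      exact (mul_pos_iff_of_pos_right h1).1 h2
    by_contra hxy
    rcases lt_trichotomy s 1 with h6 | h6 | h6
    · apply hext y hy
      have hc' : p c ∈ p '' ((E.erase y : Finset ι) : Set ι) :=
        ⟨c, by simp [hcE, Ne.symm hyc], rfl⟩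
      have hx' : p x ∈ p '' ((E.erase y : Finset ι) : Set ι) := ⟨x, by simp [hx, hxy], rfl⟩
      exact (convex_convexHull ℝ _).segment_subset (subset_convexHull _ _ hc')
        (subset_convexHull _ _ hx') (mem_seg.2 ⟨s, hs0.le, h6.le, hs⟩)
    · rw [h6, one_smul] at hs
      apply hxy
      apply hinj
      rw [hs]; abel
    · apply hext x hx
      have hc' : p c ∈ p '' ((E.erase x : Finset ι) : Set ι) :=
        ⟨c, by simp [hcE, Ne.symm hxc], rfl⟩
      have hy' : p y ∈ p '' ((E.erase x : Finset ι) : Set ι) :=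
        ⟨y, by simp [hy, Ne.symm hxy], rfl⟩
      refine (convex_convexHull ℝ _).segment_subset (subset_convexHull _ _ hc')
        (subset_convexHull _ _ hy') (mem_seg.2 ⟨1 / s, by positivity, ?_, ?_⟩)
      · rw [div_le_one hs0]; exact h6.le
      · rw [hs, add_sub_cancel_left, smul_smul, one_div, inv_mul_cancel₀ hs0.ne', one_smul]
        abel
  obtain ⟨m, hm⟩ : ∃ m, E.card = m + 2 := ⟨E.card - 2, by omega⟩
  have hcard : ((E.erase c).image κ).card = m + 1 := by
    rw [Finset.card_image_of_injOn, Finset.card_erase_of_mem hcE, hm]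
    · omega
    · intro x hx y hy h
      simp only [Finset.coe_erase, Set.mem_sdiff, Finset.mem_coe, Set.mem_singleton_iff] at hx hy
      exact hκinj x hx.1 hx.2 y hy.1 hy.2 h
  have hg : ∀ i : Fin (m + 1), ∃ x ∈ E.erase c, κ x =
      ((E.erase c).image κ).orderEmbOfFin hcard i := by
    intro i
    have := Finset.orderEmbOfFin_mem _ hcard i
    rw [Finset.mem_image] at this
    exact this
  choose g hgE hgκ using hg
  set e : ℕ → ι := fun i => match i with
    | 0 => c
    | i + 1 => if h : i < m + 1 then g ⟨i, h⟩ else c with he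
  have he0 : e 0 = c := rfl
  have hes : ∀ i (h : i < m + 1), e (i + 1) = g ⟨i, h⟩ := by
    intro i h
    simp only [he, dif_pos h]
  have hgE' : ∀ i, g i ∈ E ∧ g i ≠ c := fun i => by
    have := hgE i
    rw [Finset.mem_erase] at this
    exact ⟨this.2, this.1⟩
  -- strict convexity from the first vertex
  have h0 : ∀ j l, 0 < j → j < l → l ≤ m + 1 → 0 < ori (p (e 0)) (p (e j)) (p (e l)) := by
    intro j l hj hjl hl
    obtain ⟨j, rfl⟩ : ∃ j', j = j' + 1 := ⟨j - 1, by omega⟩
    obtain ⟨l, rfl⟩ : ∃ l', l = l' + 1 := ⟨l - 1, by omega⟩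
    rw [he0, hes j (by omega), hes l (by omega)]
    apply hlt _ (hgE' _).1 (hgE' _).2 _ (hgE' _).1 (hgE' _).2
    rw [hgκ, hgκ]
    apply (Finset.orderEmbOfFin _ hcard).strictMono
    rw [Fin.mk_lt_mk]
    omega
  have hmemE : ∀ i, i ≤ m + 1 → e i ∈ E := by
    intro i hi
    rcases i with _ | i
    · exact hcE
    · rw [hes i (by omega)]
      exact (hgE' _).1
  have hne : ∀ i j, i < j → j ≤ m + 1 → e i ≠ e j := by
    intro i j hij hj h
    rcases i with _ | i
    · obtain ⟨j, rfl⟩ : ∃ j', j = j' + 1 := ⟨j - 1, by omega⟩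
      rw [he0, hes j (by omega)] at h
      exact (hgE' _).2 h.symm
    · have := h0 (i + 1) j (by omega) hij hj
      rw [h, ori_self'] at this
      exact lt_irrefl _ this
  refine ⟨m, e, by omega, hm, hmemE, ?_, ?_⟩
  · intro x hx
    by_cases hxc : x = c
    · exact ⟨0, by omega, hxc.symm ▸ he0⟩
    · have h1 : κ x ∈ (E.erase c).image κ :=
        Finset.mem_image_of_mem _ (Finset.mem_erase.2 ⟨hxc, hx⟩)
      have h2 : κ x ∈ Set.range (((E.erase c).image κ).orderEmbOfFin hcard) := by
        rw [Finset.range_orderEmbOfFin]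
        exact_mod_cast h1
      obtain ⟨i, hi⟩ := h2
      refine ⟨i + 1, by have := i.2; omega, ?_⟩
      rw [hes i i.2]
      apply hκinj _ (hgE' _).1 (hgE' _).2 _ hx hxc
      rw [hgκ]
      exact hi
  · intro i j l hij hjl hl
    rcases Nat.eq_zero_or_pos i with rfl | hi
    · exact h0 j l hij hjl hl
    · by_contra hlt'
      push Not at hlt'
      apply hext (e j) (hmemE j (by omega))
      have h1 := h0 i l hi (by omega) hl
      have h2 := h0 i j hi hij (by omega)
      have h4 := h0 j l (by omega) hjl hl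
      have h5 : p (e j) ∈ convexHull ℝ ({p (e 0), p (e i), p (e l)} : Set Pt) := by
        apply mem_tri h1 h2.le
        · have := ori_swap (p (e i)) (p (e j)) (p (e l))
          linarith
        · have := ori_rot (p (e l)) (p (e 0)) (p (e j))
          linarith
      refine convexHull_mono ?_ h5
      intro x hx
      simp only [Set.mem_insert_iff, Set.mem_singleton_iff] at hx
      rcases hx with rfl | rfl | rfl
      · exact ⟨e 0, by simp [hmemE 0 (by omega), hne 0 j (by omega) (by omega)], rfl⟩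
      · exact ⟨e i, by simp [hmemE i (by omega), hne i j (by omega) (by omega)], rfl⟩
      · exact ⟨e l, by simp [hmemE l (by omega), (hne j l (by omega) (by omega)).symm], rfl⟩

end TH691.VC
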