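import Mathlib

/-!
# Components of a relation on a list of vertices

Adapted from `Pool.Agent.TH666.FP.Cmp` (helper666).
-/

namespace TH691.VC

section Comp

variable (V : List ℕ) (A : ℕ → ℕ → Prop)

open Classical in
/-- one step of the exploration -/
noncomputable def grow (S : List ℕ) : List ℕ :=
  V.filter (fun u => decide (u ∈ S ∨ ∃ w ∈ S, A w u))

/-- the start of the exploration -/
def strt (v : ℕ) : List ℕ := V.filter (fun u => decide (u = v))

/-- the component of a vertex -/
noncomputable def comp (v : ℕ) : List ℕ := (grow V A)^[V.length] (strt V v)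

variable {V A}

theorem mem_strt {u v : ℕ} : u ∈ strt V v ↔ u ∈ V ∧ u = v := by
  unfold strt
  rw [List.mem_filter, decide_eq_true_eq]

theorem mem_grow {S : List ℕ} {u : ℕ} : u ∈ grow V A S ↔ u ∈ V ∧ (u ∈ S ∨ ∃ w ∈ S, A w u) := by
  classical
  unfold grow
  rw [List.mem_filter, decide_eq_true_eq]

theorem grow_sub (S : List ℕ) : (grow V A S).Sublist V := by
  unfold grow
  exact List.filter_sublist

/-- the stages -/
theorem stage_sub (v k : ℕ) : ((grow V A)^[k] (strt V v)).Sublist V := by
  cases k with
  | zero => exact List.filter_sublist
  | succ k => rw [Function.iterate_succ_apply']; exact grow_sub _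

theorem stage_mono (v k : ℕ) :
    ((grow V A)^[k] (strt V v)) ⊆ ((grow V A)^[k + 1] (strt V v)) := by
  intro u hu
  rw [Function.iterate_succ_apply', mem_grow]
  exact ⟨(stage_sub v k).subset hu, Or.inl hu⟩

/-- Two filters of the same list, the first one smaller. -/
theorem filter_length_lt {p q : ℕ → Prop} [DecidablePred p] [DecidablePred q] (hpq : ∀ x ∈ V, p x → q x) (hne : ∃ x ∈ V, q x ∧ ¬ p x) :
    (V.filter (fun x => decide (p x))).length < (V.filter (fun x => decide (q x))).length := by
  induction V with
  | nil => obtain ⟨x, hx, -⟩ := hne; simp at hx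
  | cons a V ih =>
    have hle : (V.filter (fun x => decide (p x))).length ≤
        (V.filter (fun x => decide (q x))).length := by
      rw [← List.countP_eq_length_filter, ← List.countP_eq_length_filter]
      refine List.countP_mono_left fun x hx hx' => ?_
      rw [decide_eq_true_eq] at hx' ⊢
      exact hpq x (List.mem_cons_of_mem _ hx) hx'
    obtain ⟨x, hx, hqx, hpx⟩ := hne
    rcases List.mem_cons.1 hx with rfl | hx
    · rw [List.filter_cons_of_neg (by simpa using hpx), List.filter_cons_of_pos (by simpa using hqx)]
      rw [List.length_cons]
      omega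
    · have h1 := ih (fun y hy => hpq y (List.mem_cons_of_mem _ hy)) ⟨x, hx, hqx, hpx⟩
      by_cases hpa : p a
      · rw [List.filter_cons_of_pos (by simpa using hpa),
          List.filter_cons_of_pos (by simpa using hpq a (by simp) hpa)]
        simpa using h1
      · rw [List.filter_cons_of_neg (by simpa using hpa)]
        by_cases hqa : q a
        · rw [List.filter_cons_of_pos (by simpa using hqa), List.length_cons]
          omega
        · rw [List.filter_cons_of_neg (by simpa using hqa)]
          exact h1

open Classical in
theorem comp_fixed (v : ℕ) : grow V A (comp V A v) = comp V A v := by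
  set S : ℕ → List ℕ := fun k => (grow V A)^[k] (strt V v) with hS
  have hsucc : ∀ k, S (k + 1) = grow V A (S k) := fun k => by
    simp only [hS]; rw [Function.iterate_succ_apply']
  -- stages are filters by membership
  have hfilt : ∀ k, S k = V.filter (fun u => decide (u ∈ S k)) := by
    intro k
    have h1 : ∃ p : ℕ → Prop, S k = V.filter (fun u => decide (p u)) := by
      cases k with
      | zero => exact ⟨fun u => u = v, by
          simp only [hS, Function.iterate_zero, id]
          unfold strt
          exact List.filter_congr fun _ _ => by rw [decide_eq_decide]⟩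
      | succ k => exact ⟨fun u => u ∈ S k ∨ ∃ w ∈ S k, A w u, by
          rw [hsucc k]
          unfold grow
          exact List.filter_congr fun _ _ => by rw [decide_eq_decide]⟩
    obtain ⟨p, hp⟩ := h1
    conv_lhs => rw [hp]
    refine List.filter_congr fun u hu => ?_
    rw [decide_eq_decide]
    rw [hp, List.mem_filter, decide_eq_true_eq]
    exact ⟨fun h => ⟨hu, h⟩, fun h => h.2⟩
  have hmono : ∀ k u, u ∈ S k → u ∈ S (k + 1) := fun k u hu => stage_mono v k hu
  have key : ∀ k, S k = S (k + 1) ∨ k ≤ (S k).length := by
    intro k
    induction k with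
    | zero => exact Or.inr (Nat.zero_le _)
    | succ k ih =>
      by_cases he : S k = S (k + 1)
      · left
        rw [hsucc (k + 1), ← he, ← hsucc k]
        exact he
      · right
        have h1 := ih.resolve_left he
        have h2 : (S k).length < (S (k + 1)).length := by
          rw [hfilt k, hfilt (k + 1)]
          refine filter_length_lt (fun x _ hx => hmono k x hx) ?_
          by_contra hcon
          refine he ?_
          rw [hfilt k, hfilt (k + 1)]
          refine List.filter_congr fun u hu => ?_
          rw [decide_eq_decide]
          refine ⟨hmono k u, fun h => ?_⟩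
          by_contra h'
          exact hcon ⟨u, hu, h, h'⟩
        omega
  have hlast : S V.length = S (V.length + 1) := by
    rcases key V.length with h | h
    · exact h
    · have h1 : (S V.length).Sublist V := stage_sub v _
      have h2 := h1.eq_of_length_le h
      have h3 : (S (V.length + 1)).Sublist V := stage_sub v _
      have h4 : (S (V.length + 1)).length = V.length := by
        refine le_antisymm h3.length_le ?_
        rw [hfilt (V.length + 1), ← List.countP_eq_length_filter]
        have : V.length = (V.filter (fun u => decide (u ∈ S V.length))).length := by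
          rw [← hfilt]; rw [h2]
        conv_lhs => rw [this, ← List.countP_eq_length_filter]
        refine List.countP_mono_left fun x hx hx' => ?_
        rw [decide_eq_true_eq] at hx' ⊢
        exact hmono _ x hx'
      rw [h2, h3.eq_of_length_le h4.ge]
  have h1 : comp V A v = S V.length := rfl
  rw [h1, ← hsucc, ← hlast]

theorem comp_sub (v : ℕ) : (comp V A v).Sublist V := stage_sub v _

theorem comp_closed {v x y : ℕ} (hx : x ∈ comp V A v) (hy : y ∈ V) (hxy : A x y) :
    y ∈ comp V A v := by
  rw [← comp_fixed, mem_grow]
  exact ⟨hy, Or.inr ⟨x, hx, hxy⟩⟩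

theorem comp_self {v : ℕ} (hv : v ∈ V) : v ∈ comp V A v := by
  have h : ∀ k, v ∈ (grow V A)^[k] (strt V v) := by
    intro k
    induction k with
    | zero => rw [Function.iterate_zero, id, mem_strt]; exact ⟨hv, rfl⟩
    | succ k ih => exact stage_mono v k ih
  exact h _

theorem comp_filter (v : ℕ) :
    comp V A v = V.filter (fun u => @decide (u ∈ comp V A v) (Classical.propDecidable _)) := by
  classical
  conv_lhs => rw [← comp_fixed]
  unfold grow
  refine List.filter_congr fun u hu => ?_
  rw [decide_eq_decide]
  constructor
  · intro h
    rw [← comp_fixed, mem_grow]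
    exact ⟨hu, h⟩
  · intro h
    exact Or.inl h

/-- closed predicates are constant on components -/
theorem comp_pred (hsym : ∀ u v, A u v → A v u) {v : ℕ} {T : ℕ → Prop}
    (hT : ∀ x ∈ comp V A v, T x → ∀ y ∈ comp V A v, A x y → T y) (hv : v ∈ V)
    {x : ℕ} (hx : x ∈ comp V A v) (hTx : T x) {y : ℕ} (hy : y ∈ comp V A v) : T y := by
  classical
  have hmem : ∀ k u, u ∈ (grow V A)^[k] (strt V v) →
      u ∈ comp V A v := by
    intro k
    induction k with
    | zero =>
      intro u hu
      rw [Function.iterate_zero, id, mem_strt] at hu
      rw [hu.2]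
      exact comp_self hv
    | succ k ih =>
      intro u hu
      rw [Function.iterate_succ_apply', mem_grow] at hu
      rcases hu with ⟨huV, h | ⟨w, hw, hwu⟩⟩
      · exact ih u h
      · exact comp_closed (ih w hw) huV hwu
  have hback : ∀ k u, u ∈ (grow V A)^[k] (strt V v) → T u → T v := by
    intro k
    induction k with
    | zero =>
      intro u hu hTu
      rw [Function.iterate_zero, id, mem_strt] at hu
      rw [← hu.2]
      exact hTu
    | succ k ih =>
      intro u hu hTu
      have hu' := hmem (k + 1) u hu
      rw [Function.iterate_succ_apply', mem_grow] at hu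
      rcases hu with ⟨huV, h | ⟨w, hw, hwu⟩⟩
      · exact ih u h hTu
      · exact ih w hw (hT u hu' hTu w (hmem k w hw) (hsym _ _ hwu))
  have hfor : ∀ k u, u ∈ (grow V A)^[k] (strt V v) → T v → T u := by
    intro k
    induction k with
    | zero =>
      intro u hu hTv
      rw [Function.iterate_zero, id, mem_strt] at hu
      rw [hu.2]
      exact hTv
    | succ k ih =>
      intro u hu hTv
      have hu' := hmem (k + 1) u hu
      rw [Function.iterate_succ_apply', mem_grow] at hu
      rcases hu with ⟨huV, h | ⟨w, hw, hwu⟩⟩
      · exact ih u h hTv
      · exact hT w (hmem k w hw) (ih w hw hTv) u hu' hwu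
  exact hfor _ y hy (hback _ x hx hTx)

theorem comp_eq (hsym : ∀ u v, A u v → A v u) {u v : ℕ} (hv : v ∈ V) (hu : u ∈ comp V A v) :
    comp V A u = comp V A v := by
  classical
  have huV : u ∈ V := (comp_sub v).subset hu
  rw [comp_filter u, comp_filter v]
  refine List.filter_congr fun w hw => ?_
  rw [decide_eq_decide]
  constructor
  · intro h
    -- membership in comp v is closed
    refine comp_pred (V := V) (A := A) (T := fun z => z ∈ comp V A v) hsym ?_ huV
      (comp_self huV) hu h
    intro x _ hx' y hy hxy
    exact comp_closed hx' ((comp_sub u).subset hy) hxy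
  · intro h
    refine comp_pred (V := V) (A := A) (T := fun z => z ∈ comp V A u) hsym ?_ hv
      hu (comp_self huV) h
    intro x _ hx' y hy hxy
    exact comp_closed hx' ((comp_sub v).subset hy) hxy


end Comp

end TH691.VC
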