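import Pool.Agent.TH691.VC.Alg

/-!
# Completeness of the algorithm
-/

namespace TH691.VC

section
variable {n : ℕ} {G : SimpleGraph (Fin n)} {M : List (List Bool)} (hM : Rep G M)
include hM

open Classical in
theorem Rep.complete (K : Finset (Fin n)) : ∀ (r : ℕ) (S : Set (Fin n)) (C : List ℕ),
    (∀ y : Fin n, y ∈ S → (y : ℕ) ∈ C) → Der G.Adj K r S →
    (K.filter (fun y => y ∈ S)).card ≤ (val M r C).length := by
  intro r
  induction r with
  | zero =>
    intro S C _ hD
    have : K.filter (fun y => y ∈ S) = ∅ := by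
      rw [Finset.filter_eq_empty_iff]
      intro x hx
      exact hD x hx
    rw [this]
    simp
  | succ r ih =>
    intro S C hSC hD
    obtain ⟨T, hT8, hTc, hTK⟩ := hD
    set T' : List (Fin n) := T.toList with hT'
    have hTT : T'.toFinset = T := Finset.toList_toFinset T
    set L : List ℕ := List.map (fun t : Fin n => (t : ℕ)) T' with hL
    have hLT : L ∈ tups M := by
      rw [mem_tups]
      refine ⟨⟨?_, ?_⟩, ?_⟩
      · rw [hL, List.length_map, hT', Finset.length_toList]; exact hT8
      · intro x hx
        obtain ⟨y, _, rfl⟩ := List.mem_map.1 hx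
        rw [hM.len]; exact y.2
      · intro s hs t ht hst
        obtain ⟨s', hs', rfl⟩ := List.mem_map.1 hs
        obtain ⟨t', ht', rfl⟩ := List.mem_map.1 ht
        rw [hM.adj]
        apply hTc s' _ t' _ (fun h => hst (by rw [h]))
        · rwa [hT', Finset.mem_toList] at hs'
        · rwa [hT', Finset.mem_toList] at ht'
    refine le_trans ?_ (best_ge (tab := tabr M r) (C := C) hLT)
    -- notation
    set KS : Finset (Fin n) := K.filter (fun y => y ∈ S) with hKS
    set Dc : Finset (List ℕ) := (KS.filter (fun y => y ∉ T)).image (fun x : Fin n => cmp M L x)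
      with hDc
    -- properties of the components
    have hDprop : ∀ D ∈ Dc, ∃ x : Fin n, x ∈ K ∧ x ∈ S ∧ x ∈ N G.Adj T ∧ cmp M L x = D ∧
        AC G.Adj (N G.Adj T) x ⊆ S ∧ Der G.Adj K r (AC G.Adj (N G.Adj T) x) := by
      intro D hD
      obtain ⟨x, hx, rfl⟩ := Finset.mem_image.1 hD
      rw [Finset.mem_filter, hKS, Finset.mem_filter] at hx
      obtain ⟨⟨h1, h2⟩, h3⟩ := hx
      rcases hTK x h1 h2 with h4 | ⟨h4, h5, h6⟩
      · exact absurd h4 h3
      · exact ⟨x, h1, h2, h4, rfl, h5, h6⟩
    have hnb : ∀ x : Fin n, x ∈ N G.Adj T → (x : ℕ) ∈ nbL M L := by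
      intro x hx
      rw [hL, hM.mem_nbL_iff, hTT]; exact hx
    have hcmp : ∀ x y : Fin n, x ∈ N G.Adj T →
        ((y : ℕ) ∈ cmp M L x ↔ y ∈ AC G.Adj (N G.Adj T) x) := by
      intro x y hx
      have := hM.mem_cmp_iff (T := T') (x := x) (y := y) (by rw [hTT]; exact hx)
      rw [hTT] at this
      exact this
    have hDcard : ∀ D ∈ Dc, (K.filter (fun y : Fin n => (y : ℕ) ∈ D)).card ≤
        (val M r D).length := by
      intro D hD
      obtain ⟨x, -, -, hxN, rfl, -, hDer⟩ := hDprop D hD
      have h1 := ih (AC G.Adj (N G.Adj T) x) (cmp M L x) (fun y hy => (hcmp x y hxN).2 hy) hDer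
      have h2 : K.filter (fun y => y ∈ AC G.Adj (N G.Adj T) x) =
          K.filter (fun y : Fin n => (y : ℕ) ∈ cmp M L x) :=
        Finset.filter_congr fun y _ => (hcmp x y hxN).symm
      rw [h2] at h1
      exact h1
    -- the covering
    have hcover : KS ⊆ (KS.filter (fun y => y ∈ T)) ∪
        Dc.biUnion (fun D => K.filter (fun y : Fin n => (y : ℕ) ∈ D)) := by
      intro y hy
      rw [Finset.mem_union]
      by_cases hyT : y ∈ T
      · left; rw [Finset.mem_filter]; exact ⟨hy, hyT⟩
      · right
        rw [Finset.mem_biUnion]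
        have hyK := (Finset.mem_filter.1 hy).1
        have hyD : cmp M L y ∈ Dc :=
          Finset.mem_image_of_mem _ (Finset.mem_filter.2 ⟨hy, hyT⟩)
        refine ⟨_, hyD, Finset.mem_filter.2 ⟨hyK, ?_⟩⟩
        rcases hTK y hyK (Finset.mem_filter.1 hy).2 with h4 | ⟨h4, -, -⟩
        · exact absurd h4 hyT
        · exact comp_self (hnb y h4)
    have h1 : KS.card ≤ (KS.filter (fun y => y ∈ T)).card + ∑ D ∈ Dc, (val M r D).length := by
      refine (Finset.card_le_card hcover).trans ((Finset.card_union_le _ _).trans ?_)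
      refine Nat.add_le_add_left (Finset.card_biUnion_le.trans ?_) _
      exact Finset.sum_le_sum hDcard
    refine h1.trans ?_
    -- the candidate contains the disjoint union
    have hvalN : ∀ D ∈ Dc, ∀ v ∈ val M r D, v ∈ nbL M L := by
      intro D hD v hv
      obtain ⟨x, -, -, -, rfl, -, -⟩ := hDprop D hD
      exact cmp_sub M L x (val_subC M r _ v hv)
    have hdisj : (Dc : Set (List ℕ)).PairwiseDisjoint (fun D => (val M r D).toFinset) := by
      intro D hD D' hD' hne
      rw [Function.onFun, Finset.disjoint_left]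
      intro v hv hv'
      rw [List.mem_toFinset] at hv hv'
      obtain ⟨x, -, -, hxN, rfl, -, -⟩ := hDprop D (by exact_mod_cast hD)
      obtain ⟨y, -, -, hyN, rfl, -, -⟩ := hDprop D' (by exact_mod_cast hD')
      have h2 := hM.cmp_eq (hnb x hxN) (val_subC M r _ v hv)
      have h3 := hM.cmp_eq (hnb y hyN) (val_subC M r _ v hv')
      exact hne (h2.symm.trans h3)
    have h2 : ∑ D ∈ Dc, (val M r D).length =
        (Dc.biUnion (fun D => (val M r D).toFinset)).card := by
      rw [Finset.card_biUnion hdisj]
      exact Finset.sum_congr rfl fun D _ => (List.toFinset_card_of_nodup (val_nodup M r D)).symm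
    have h3 : (KS.filter (fun y => y ∈ T)).card =
        ((KS.filter (fun y => y ∈ T)).image (fun y : Fin n => (y : ℕ))).card :=
      (Finset.card_image_of_injective _ Fin.val_injective).symm
    rw [h2, h3, ← Finset.card_union_of_disjoint]
    · have h4 : (cand M (tabr M r) C L).length = (cand M (tabr M r) C L).toFinset.card := by
        rw [List.toFinset_card_of_nodup]
        exact List.nodup_range.sublist List.filter_sublist
      rw [h4]
      apply Finset.card_le_card
      intro v hv
      rw [List.mem_toFinset, mem_cand]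
      rw [Finset.mem_union] at hv
      rcases hv with hv | hv
      · obtain ⟨y, hy, rfl⟩ := Finset.mem_image.1 hv
        rw [Finset.mem_filter] at hy
        refine ⟨by rw [hM.len]; exact y.2, Or.inl ⟨?_, hSC y (Finset.mem_filter.1 hy.1).2⟩⟩
        rw [hL]
        exact List.mem_map.2 ⟨y, by rw [hT', Finset.mem_toList]; exact hy.2, rfl⟩
      · obtain ⟨D, hD, hvD⟩ := Finset.mem_biUnion.1 hv
        rw [List.mem_toFinset] at hvD
        obtain ⟨x, -, -, hxN, hxD, hxS, -⟩ := hDprop D hD
        have hDcomp : D ∈ comps M L := mem_comps.2 ⟨x, hnb x hxN, hxD⟩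
        refine ⟨(mem_nbL.1 (hvalN D hD v hvD)).1, Or.inr ⟨D, hDcomp, ?_,
          mem_keys.2 ⟨L, hLT, hDcomp⟩, hvD⟩⟩
        intro z hz
        have hzn : z < n := by
          have := cmp_sub M L x (by rw [hxD]; exact hz)
          rw [← hM.len]
          exact (mem_nbL.1 this).1
        rw [← hxD] at hz
        exact hSC ⟨z, hzn⟩ (hxS ((hcmp x ⟨z, hzn⟩ hxN).1 hz))
    · rw [Finset.disjoint_left]
      intro v hv hv'
      obtain ⟨y, hy, rfl⟩ := Finset.mem_image.1 hv
      rw [Finset.mem_filter] at hy
      obtain ⟨D, hD, hvD⟩ := Finset.mem_biUnion.1 hv'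
      rw [List.mem_toFinset] at hvD
      have h5 := (mem_nbL.1 (hvalN D hD _ hvD)).2 y
        (List.mem_map.2 ⟨y, by rw [hT', Finset.mem_toList]; exact hy.2, rfl⟩)
      exact hM.irr (by rw [hM.len]; exact y.2) h5

/-- The algorithm is correct if maximal cliques are derivable. -/
theorem Rep.correct (hG : ∀ K : Finset (Fin n), G.IsClique (K : Set (Fin n)) →
    (∀ w, (∀ k ∈ K, k ≠ w → G.Adj k w) → w ∈ K) → Der G.Adj K (K.card + 2) Set.univ) :
    ∃ K : Finset (Fin n), G.IsMaximumClique K ∧
      alg M = (K.sort (· ≤ ·)).map (fun i : Fin n => (i : ℕ)) := by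
  classical
  -- the output as a set of vertices
  have hsub : (alg M).Sublist (List.range M.length) := best_sub _ _ _
  have hsub' : (alg M).Sublist (List.range n) := by rw [← hM.len]; exact hsub
  have hval : alg M = val M (M.length + 2) (List.range M.length) := rfl
  set A : Finset (Fin n) := Finset.univ.filter (fun i => (i : ℕ) ∈ alg M) with hA
  have hAclq : G.IsClique (A : Set (Fin n)) := by
    intro s hs t ht hst
    rw [hA, Finset.coe_filter] at hs ht
    rw [← hM.adj]
    have h1 := hs.2
    have h2 := ht.2
    rw [hval] at h1 h2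
    exact hM.val_clq _ _ _ h1 _ h2 (fun h => hst (Fin.ext h))
  have hlist : alg M = (A.sort (· ≤ ·)).map (fun i : Fin n => (i : ℕ)) := by
    have hnd : (alg M).Nodup := List.nodup_range.sublist hsub
    have hs1 : (alg M).Pairwise (· < ·) := List.Pairwise.sublist hsub List.pairwise_lt_range
    have hs2 : ((A.sort (· ≤ ·)).map (fun i : Fin n => (i : ℕ))).Pairwise (· < ·) := by
      rw [List.pairwise_map]
      exact (A.sortedLT_sort).pairwise
    apply List.Perm.eq_of_pairwise (le := fun a b => a < b)
    · intro a b _ _ h1 h2; omega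
    · exact hs1
    · exact hs2
    · rw [List.perm_ext_iff_of_nodup hnd (hs2.imp (fun h => ne_of_lt h))]
      intro a
      rw [List.mem_map]
      constructor
      · intro ha
        have han : a < n := by
          have := hsub'.subset ha
          rwa [List.mem_range] at this
        exact ⟨⟨a, han⟩, by rw [Finset.mem_sort, hA]; simp [ha], rfl⟩
      · rintro ⟨i, hi, rfl⟩
        rw [Finset.mem_sort, hA, Finset.mem_filter] at hi
        exact hi.2
  have hAcard : A.card = (alg M).length := by
    rw [hlist, List.length_map, Finset.length_sort]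
  refine ⟨A, ⟨hAclq, ?_⟩, hlist⟩
  -- compare with a maximum clique
  intro B hB
  obtain ⟨K, hK, hKmax⟩ := Finset.exists_max_image
    ((Finset.univ : Finset (Finset (Fin n))).filter
      (fun K : Finset (Fin n) => G.IsClique (K : Set (Fin n))))
    Finset.card ⟨∅, by simp⟩
  rw [Finset.mem_filter] at hK
  have hBK : B.card ≤ K.card := hKmax B (by
    rw [Finset.mem_filter]
    exact ⟨Finset.mem_univ _, hB⟩)
  have hKm : ∀ w, (∀ k ∈ K, k ≠ w → G.Adj k w) → w ∈ K := by
    intro w hw
    by_contra hwK
    have h1 : G.IsClique ((insert w K : Finset (Fin n)) : Set (Fin n)) := by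
      rw [Finset.coe_insert]
      exact hK.2.insert fun k hk hne => (hw k hk hne.symm).symm
    have h2 := hKmax (insert w K) (by
      rw [Finset.mem_filter]
      exact ⟨Finset.mem_univ _, h1⟩)
    rw [Finset.card_insert_of_notMem hwK] at h2
    omega
  have hder := hG K hK.2 hKm
  have hder' : Der G.Adj K (M.length + 2) Set.univ := by
    apply hder.mono
    have : K.card ≤ n := by
      have := Finset.card_le_univ K
      rwa [Fintype.card_fin] at this
    rw [hM.len]; omega
  have h3 := hM.complete K (M.length + 2) Set.univ (List.range M.length) (fun y _ => by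
    rw [List.mem_range, hM.len]; exact y.2) hder'
  have h4 : K.card ≤ (val M (M.length + 2) (List.range M.length)).length := by
    refine le_trans (Finset.card_le_card ?_) h3
    intro x hx
    simpa using hx
  rw [← hval, ← hAcard] at h4
  omega

end

end TH691.VC
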