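import Pool.Agent.TH691.VC.Sweep

/-!
# The sweep along the hull of a maximal clique, second part
-/

namespace TH691.VC

variable {ι : Type} [DecidableEq ι]

section
variable {p : ι → Pt} {P : Set Pt} {K : Finset ι} {m : ℕ} {e : ℕ → ι} (h : Ctx p P K m e)
include h

theorem Ctx.kHull {k : ι} (hk : k ∈ K) : p k ∈ convexHull ℝ ((K.image p : Finset Pt) : Set Pt) :=
  subset_convexHull _ _ (by
    rw [Finset.coe_image]
    exact ⟨k, by exact_mod_cast hk, rfl⟩)

theorem Ctx.clq' : ∀ s ∈ K.image p, ∀ t ∈ K.image p, segment ℝ s t ⊆ P := by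
  intro s hs t ht
  obtain ⟨s', hs', rfl⟩ := Finset.mem_image.1 hs
  obtain ⟨t', ht', rfl⟩ := Finset.mem_image.1 ht
  exact h.clq s' hs' t' ht'

theorem Ctx.MiHull {i : ℕ} (hi : i ≤ m) :
    Mi p e i ∈ convexHull ℝ ((K.image p : Finset Pt) : Set Pt) :=
  (convex_convexHull ℝ _).segment_subset (h.kHull (h.eK i (by omega)))
    (h.kHull (h.eK (i + 1) (by omega))) (mid_mem _ _)

theorem Ctx.MfHull : Mf p e m ∈ convexHull ℝ ((K.image p : Finset Pt) : Set Pt) :=
  (convex_convexHull ℝ _).segment_subset (h.kHull (h.eK (m + 1) (by omega)))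
    (h.kHull (h.eK 0 (by omega))) (mid_mem _ _)

theorem Ctx.seesMi {i : ℕ} (hi : i ≤ m) {w : ι} (h1 : segment ℝ (p w) (p (e i)) ⊆ P)
    (h2 : segment ℝ (p w) (p (e (i + 1))) ⊆ P) : segment ℝ (p w) (Mi p e i) ⊆ P :=
  h.reg _ _ _ h1 h2 (h.clq _ (h.eK _ (by omega)) _ (h.eK _ (by omega))) _ (mid_mem _ _)

theorem Ctx.seesMf {w : ι} (h1 : segment ℝ (p w) (p (e (m + 1))) ⊆ P)
    (h2 : segment ℝ (p w) (p (e 0)) ⊆ P) : segment ℝ (p w) (Mf p e m) ⊆ P :=
  h.reg _ _ _ h1 h2 (h.clq _ (h.eK _ (by omega)) _ (h.eK _ (by omega))) _ (mid_mem _ _)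

/-- the basic crossing argument -/
theorem Ctx.chord {i : ℕ} (hi : i ≤ m) {w w' : ι}
    (a1 : segment ℝ (p w) (p (e i)) ⊆ P) (a2 : segment ℝ (p w) (p (e (i + 1))) ⊆ P)
    (a3 : segment ℝ (p w) (p (e (m + 1))) ⊆ P) (a4 : segment ℝ (p w) (p (e 0)) ⊆ P)
    (a5 : 0 ≤ ori (p (e i)) (p (e (i + 1))) (p w)) (a6 : 0 ≤ ori (p (e (m + 1))) (p (e 0)) (p w))
    (b1 : segment ℝ (p w') (p (e i)) ⊆ P) (b2 : segment ℝ (p w') (p (e (i + 1))) ⊆ P)
    (b3 : segment ℝ (p w') (p (e (m + 1))) ⊆ P) (b4 : segment ℝ (p w') (p (e 0)) ⊆ P)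
    (b5 : 0 ≤ ori (p (e i)) (p (e (i + 1))) (p w')) (b6 : 0 ≤ ori (p (e (m + 1))) (p (e 0)) (p w'))
    (c1 : ori (Mi p e i) (Mf p e m) (p w) ≤ 0) (c2 : 0 ≤ ori (Mi p e i) (Mf p e m) (p w')) :
    segment ℝ (p w) (p w') ⊆ P := by
  apply cross_chord h.reg (a := p (e i)) (b := p (e (i + 1))) (c := p (e (m + 1))) (d := p (e 0))
    (M := Mi p e i) (M' := Mf p e m)
  · have := ori_mid (p (e i)) (p (e (i + 1))) (p (e i)) (p (e (i + 1)))
    rw [ori_self, ori_self'] at this
    unfold Mi; linarith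
  · exact h.posMf hi
  · have := ori_mid (p (e (m + 1))) (p (e 0)) (p (e (m + 1))) (p (e 0))
    rw [ori_self, ori_self'] at this
    unfold Mf; linarith
  · exact h.posMi hi
  · exact sees_hull_hull h.reg _ h.clq' (h.MiHull hi) h.MfHull
  · exact h.seesMi hi a1 a2
  · exact h.seesMf a3 a4
  · exact h.seesMi hi b1 b2
  · exact h.seesMf b3 b4
  · exact a5
  · exact a6
  · exact b5
  · exact b6
  · exact c1
  · exact c2

omit h in
theorem Nsees {i : ℕ} {w t : ι} (hw : w ∈ N (vadj p P) (TT m e i)) (ht : t ∈ TT m e i) :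
    segment ℝ (p w) (p t) ⊆ P := sees_symm (hw t ht).2

theorem Ctx.fact2 {i : ℕ} (hi : i ≤ m) {w w' : ι} (hw : w ∈ N (vadj p P) (TT m e i))
    (hw' : w' ∈ N (vadj p P) (TT m e i)) (hne : w ≠ w')
    (c1 : ori (Mi p e i) (Mf p e m) (p w) ≤ 0) (c2 : 0 ≤ ori (Mi p e i) (Mf p e m) (p w')) :
    vadj p P w w' :=
  ⟨hne, h.chord hi (Nsees hw (TT_i _ _ _)) (Nsees hw (TT_s _ _ _)) (Nsees hw (TT_m1 _ _ _))
    (Nsees hw (TT_0 _ _ _)) (h.fact1E hi hw) (h.fact1F hw) (Nsees hw' (TT_i _ _ _))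
    (Nsees hw' (TT_s _ _ _)) (Nsees hw' (TT_m1 _ _ _))
    (Nsees hw' (TT_0 _ _ _)) (h.fact1E hi hw') (h.fact1F hw') c1 c2⟩

theorem Ctx.fact3 {i : ℕ} (hi : i + 1 ≤ m) {w : ι} (hw : w ∈ N (vadj p P) (TT m e (i + 1)))
    (c1 : ori (Mi p e (i + 1)) (Mf p e m) (p w) ≤ 0) : w ∈ N (vadj p P) (TT m e i) := by
  intro t ht
  have h0 : vadj p P (e (i - 1)) w := by
    rcases Nat.eq_zero_or_pos i with rfl | hi0
    · exact hw _ (TT_0 _ _ _)
    · have hside := h.side_pos (i := i + 1) (j := i - 1) hi (by omega)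
      refine ⟨?_, ?_⟩
      · rintro rfl
        linarith
      · have hk := h.eK (i - 1) (by omega)
        apply sees_symm
        apply h.chord hi (Nsees hw (TT_i _ _ _)) (Nsees hw (TT_s _ _ _)) (Nsees hw (TT_m1 _ _ _))
          (Nsees hw (TT_0 _ _ _)) (h.fact1E hi hw) (h.fact1F hw) (h.clq _ hk _ (h.eK _ (by omega)))
          (h.clq _ hk _ (h.eK _ (by omega))) (h.clq _ hk _ (h.eK _ (by omega)))
          (h.clq _ hk _ (h.eK _ (by omega))) (h.hE _ hi _ hk) (h.hF _ hk) c1 hside.le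
  rw [mem_TT] at ht
  rcases ht with rfl | rfl | rfl | rfl | rfl | rfl | rfl | rfl
  · exact h0
  · exact hw _ (TT_p m e (i + 1))
  · exact hw _ (TT_i _ _ _)
  · rw [show min (i + 2) (m + 1) = i + 2 by omega]
    exact hw _ (TT_s _ _ _)
  · exact hw _ (TT_m _ _ _)
  · exact hw _ (TT_m1 _ _ _)
  · exact hw _ (TT_0 _ _ _)
  · exact hw _ (TT_1 _ _ _)

/-- hull of the eight vertices -/
theorem Ctx.inT {i : ℕ} {t : ι} (ht : t ∈ TT m e i) :
    p t ∈ convexHull ℝ (p '' (TT m e i : Set ι)) :=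
  subset_convexHull _ _ ⟨t, by exact_mod_cast ht, rfl⟩

theorem Ctx.TMi (i : ℕ) : Mi p e i ∈ convexHull ℝ (p '' (TT m e i : Set ι)) :=
  (convex_convexHull ℝ _).segment_subset (h.inT (TT_i _ _ _)) (h.inT (TT_s _ _ _)) (mid_mem _ _)

theorem Ctx.TMi' {i : ℕ} (hi : i + 1 ≤ m) :
    Mi p e (i + 1) ∈ convexHull ℝ (p '' (TT m e i : Set ι)) := by
  have h1 := TT_q m e i
  rw [show min (i + 2) (m + 1) = i + 2 by omega] at h1
  exact (convex_convexHull ℝ _).segment_subset (h.inT (TT_s _ _ _)) (h.inT h1) (mid_mem _ _)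

theorem Ctx.TMf (i : ℕ) : Mf p e m ∈ convexHull ℝ (p '' (TT m e i : Set ι)) :=
  (convex_convexHull ℝ _).segment_subset (h.inT (TT_m1 _ _ _)) (h.inT (TT_0 _ _ _)) (mid_mem _ _)

omit h in
theorem hull3 {S : Set Pt} {A B C x : Pt} (hA : A ∈ convexHull ℝ S) (hB : B ∈ convexHull ℝ S)
    (hC : C ∈ convexHull ℝ S) (hx : x ∈ convexHull ℝ ({A, B, C} : Set Pt)) :
    x ∈ convexHull ℝ S := by
  apply convexHull_min _ (convex_convexHull ℝ _) hx
  intro y hy
  simp only [Set.mem_insert_iff, Set.mem_singleton_iff] at hy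
  rcases hy with rfl | rfl | rfl
  · exact hA
  · exact hB
  · exact hC

/-- the first triangle of the wedge -/
theorem Ctx.wedge1 {i : ℕ} (hi : i ≤ m) {y : ι}
    (h1 : 0 ≤ ori (p (e i)) (p (e (i + 1))) (p y))
    (h2 : 0 ≤ ori (p (e (i + 1))) (Mf p e m) (p y))
    (h3 : ori (Mi p e i) (Mf p e m) (p y) ≤ 0) :
    p y ∈ convexHull ℝ (p '' (TT m e i : Set ι)) := by
  apply hull3 (h.TMi i) (h.inT (TT_s m e i)) (h.TMf i)
  apply mem_tri
  · have := ori_mid_right (p (e i)) (p (e (i + 1))) (Mf p e m)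
    have h4 := h.posMf hi
    unfold Mi
    linarith
  · have := ori_mid_right (p (e i)) (p (e (i + 1))) (p y)
    unfold Mi
    linarith
  · exact h2
  · have := ori_flip (Mi p e i) (Mf p e m) (p y)
    linarith

/-- the second triangle of the wedge -/
theorem Ctx.wedge2 {i : ℕ} (hi : i + 1 ≤ m) {y : ι}
    (h1 : 0 ≤ ori (p (e (i + 1))) (p (e (i + 2))) (p y))
    (h2 : ori (p (e (i + 1))) (Mf p e m) (p y) ≤ 0)
    (h3 : 0 ≤ ori (Mi p e (i + 1)) (Mf p e m) (p y)) :
    p y ∈ convexHull ℝ (p '' (TT m e i : Set ι)) := by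
  apply hull3 (h.inT (TT_s m e i)) (h.TMi' hi) (h.TMf i)
  apply mem_tri
  · have := ori_left_mid (p (e (i + 1))) (p (e (i + 2))) (Mf p e m)
    have h4 := h.posMf (i := i + 1) hi
    unfold Mi
    have e1 : i + 1 + 1 = i + 2 := rfl
    rw [e1] at *
    linarith
  · have := ori_left_mid (p (e (i + 1))) (p (e (i + 2))) (p y)
    unfold Mi
    have e1 : i + 1 + 1 = i + 2 := rfl
    rw [e1] at *
    linarith
  · exact h3
  · have := ori_flip (p (e (i + 1))) (Mf p e m) (p y)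
    linarith

theorem Ctx.TTclq {i : ℕ} (hi : i ≤ m) : ∀ s ∈ TT m e i, ∀ t ∈ TT m e i,
    segment ℝ (p s) (p t) ⊆ P := fun s hs t ht => h.clq s (h.TT_sub hi hs) t (h.TT_sub hi ht)

theorem Ctx.AC_side {i : ℕ} (hi : i ≤ m) {x : ι} (hx : x ∈ N (vadj p P) (TT m e i))
    (hs : ori (Mi p e i) (Mf p e m) (p x) ≤ 0) :
    ∀ y ∈ AC (vadj p P) (N (vadj p P) (TT m e i)) x, ori (Mi p e i) (Mf p e m) (p y) ≤ 0 := by
  have := AC_sub_side (adj := vadj p P) (S := N (vadj p P) (TT m e i))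
    (A := {y | ori (Mi p e i) (Mf p e m) (p y) ≤ 0})
    (B := {y | 0 ≤ ori (Mi p e i) (Mf p e m) (p y)}) (x := x) hs (fun y _ => by
      rcases le_total (ori (Mi p e i) (Mf p e m) (p y)) 0 with h1 | h1
      · exact Or.inl h1
      · exact Or.inr h1)
    (fun a ha haS b hb hbS hab => h.fact2 hi haS hbS hab ha hb) hx
  intro y hy
  exact this hy

theorem Ctx.AC_of_hull {i : ℕ} (hi : i ≤ m) {y : ι}
    (hy : p y ∈ convexHull ℝ (p '' (TT m e i : Set ι))) :
    AC (vadj p P) (N (vadj p P) (TT m e i)) y = {y} :=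
  AC_single (single_of_hull h.reg (h.TTclq hi) hy)

theorem Ctx.mem_N {i : ℕ} (hi : i ≤ m) {y : ι} (hy : y ∈ K) (hyT : y ∉ TT m e i) :
    y ∈ N (vadj p P) (TT m e i) := by
  intro t ht
  exact ⟨fun h1 => hyT (h1 ▸ ht), h.clq t (h.TT_sub hi ht) y hy⟩

/-- the sweep -/
theorem Ctx.sweep : ∀ d i, i + d = m → ∀ x ∈ N (vadj p P) (TT m e i),
    ori (Mi p e i) (Mf p e m) (p x) ≤ 0 →
    Der (vadj p P) K (d + 1) (AC (vadj p P) (N (vadj p P) (TT m e i)) x) := by
  intro d
  induction d with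
  | zero =>
    intro i hi x hx hs
    have him : i = m := by omega
    subst him
    by_cases hK : ∃ y ∈ K, y ∈ AC (vadj p P) (N (vadj p P) (TT i e i)) x
    · obtain ⟨y, hyK, hy⟩ := hK
      have h1 := h.AC_side le_rfl hx hs y hy
      have h2 : p y ∈ convexHull ℝ (p '' (TT i e i : Set ι)) := by
        apply h.wedge1 le_rfl (h.hE i le_rfl y hyK) _ h1
        have h3 := h.hF y hyK
        have h4 := ori_left_mid (p (e (i + 1))) (p (e 0)) (p y)
        unfold Mf
        linarith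
      rw [← AC_eq vadj_symm hx hy, h.AC_of_hull le_rfl h2]
      exact Der.single _ _
    · push Not at hK
      exact Der.of_disjoint hK _
  | succ d ih =>
    intro i hi x hx hs
    by_cases hK : ∃ y ∈ K, y ∈ AC (vadj p P) (N (vadj p P) (TT m e i)) x ∧
        0 < ori (Mi p e (i + 1)) (Mf p e m) (p y)
    · obtain ⟨y, hyK, hy, hy2⟩ := hK
      have h1 := h.AC_side (by omega) hx hs y hy
      have h2 : p y ∈ convexHull ℝ (p '' (TT m e i : Set ι)) := by
        rcases le_total 0 (ori (p (e (i + 1))) (Mf p e m) (p y)) with h3 | h3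
        · exact h.wedge1 (by omega) (h.hE i (by omega) y hyK) h3 h1
        · exact h.wedge2 (by omega) (h.hE (i + 1) (by omega) y hyK) h3 hy2.le
      rw [← AC_eq vadj_symm hx hy, h.AC_of_hull (by omega) h2]
      exact Der.single _ _
    · push Not at hK
      refine ⟨TT m e (i + 1), TT_card _ _ _, ?_, ?_⟩
      · intro s hs' t ht hst
        exact ⟨hst, h.TTclq (by omega) s hs' t ht⟩
      · intro y hyK hy
        by_cases hyT : y ∈ TT m e (i + 1)
        · exact Or.inl hyT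
        · right
          have hyN := h.mem_N (i := i + 1) (by omega) hyK hyT
          have hys := hK y hyK hy
          refine ⟨hyN, ?_, ih (i + 1) (by omega) y hyN hys⟩
          apply AC_sub_of_sub hy
          intro w hw
          exact h.fact3 (by omega) (AC_sub hyN hw) (h.AC_side (by omega) hyN hys w hw)

theorem Ctx.der : Der (vadj p P) K (m + 2) Set.univ := by
  refine ⟨TT m e 0, TT_card _ _ _, ?_, ?_⟩
  · intro s hs' t ht hst
    exact ⟨hst, h.TTclq (by omega) s hs' t ht⟩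
  · intro y hyK _
    by_cases hyT : y ∈ TT m e 0
    · exact Or.inl hyT
    · right
      have hyN := h.mem_N (i := 0) (by omega) hyK hyT
      refine ⟨hyN, Set.subset_univ _, ?_⟩
      rcases le_total (ori (Mi p e 0) (Mf p e m) (p y)) 0 with h1 | h1
      · exact h.sweep m 0 (by omega) y hyN h1
      · have h2 : p y ∈ convexHull ℝ (p '' (TT m e 0 : Set ι)) := by
          apply hull3 (h.TMf 0) (h.inT (TT_0 m e 0)) (h.TMi 0)
          apply mem_tri
          · have h3 := ori_mid_right (p (e (m + 1))) (p (e 0)) (Mi p e 0)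
            have h4 := h.posMi (i := 0) (by omega)
            unfold Mf
            linarith
          · have h3 := ori_mid_right (p (e (m + 1))) (p (e 0)) (p y)
            have h4 := h.hF y hyK
            unfold Mf
            linarith
          · have h3 := ori_left_mid (p (e 0)) (p (e 1)) (p y)
            have h4 := h.hE 0 (by omega) y hyK
            unfold Mi
            simp only [zero_add] at *
            linarith
          · exact h1
        rw [h.AC_of_hull (by omega) h2]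
        exact Der.single _ _

end

/-- a minimal subset with the same hull -/
theorem exists_extreme (p : ι → Pt) (K : Finset ι) : ∃ E ⊆ K,
    (∀ k ∈ K, p k ∈ convexHull ℝ (p '' (E : Set ι))) ∧
    ∀ e ∈ E, p e ∉ convexHull ℝ (p '' ((E.erase e : Finset ι) : Set ι)) := by
  classical
  have hne : (K.powerset.filter (fun E : Finset ι => ∀ k ∈ K, p k ∈ convexHull ℝ (p '' (E : Set ι)))).Nonempty :=
    ⟨K, by
      rw [Finset.mem_filter, Finset.mem_powerset]
      exact ⟨le_rfl, fun k hk => subset_convexHull _ _ ⟨k, by exact_mod_cast hk, rfl⟩⟩⟩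
  obtain ⟨E, hE, hmin⟩ := Finset.exists_min_image _ Finset.card hne
  rw [Finset.mem_filter, Finset.mem_powerset] at hE
  refine ⟨E, hE.1, hE.2, ?_⟩
  intro x hx hxh
  have h1 : E.erase x ∈ K.powerset.filter
      (fun E : Finset ι => ∀ k ∈ K, p k ∈ convexHull ℝ (p '' (E : Set ι))) := by
    rw [Finset.mem_filter, Finset.mem_powerset]
    refine ⟨(Finset.erase_subset _ _).trans hE.1, fun k hk => ?_⟩
    apply convexHull_min _ (convex_convexHull ℝ _) (hE.2 k hk)
    rintro _ ⟨z, hz, rfl⟩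
    by_cases hzx : z = x
    · rw [hzx]; exact hxh
    · exact subset_convexHull _ _ ⟨z, by
        rw [Finset.coe_erase]
        exact ⟨hz, hzx⟩, rfl⟩
  have h2 := hmin _ h1
  have h3 := Finset.card_erase_lt_of_mem hx
  omega

/-- Maximal cliques are found by the algorithm. -/
theorem geo_main {p : ι → Pt} {P : Set Pt} (hreg : Reg P) (hinj : Function.Injective p)
    (hmem : ∀ i, p i ∈ P) (hbd : ∀ i, p i ∉ interior P) (K : Finset ι)
    (hK : ∀ s ∈ K, ∀ t ∈ K, s ≠ t → vadj p P s t)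
    (hmax : ∀ w, (∀ k ∈ K, k ≠ w → vadj p P k w) → w ∈ K) :
    Der (vadj p P) K (K.card + 2) Set.univ := by
  have hclq : ∀ s ∈ K, ∀ t ∈ K, segment ℝ (p s) (p t) ⊆ P := by
    intro s hs t ht
    by_cases hst : s = t
    · rw [hst, segment_same, Set.singleton_subset_iff]
      exact hmem t
    · exact (hK s hs t ht hst).2
  have hmx : ∀ w, (∀ k ∈ K, segment ℝ (p w) (p k) ⊆ P) → w ∈ K := fun w hw =>
    hmax w fun k hk hkw => ⟨hkw, sees_symm (hw k hk)⟩
  obtain ⟨E, hEK, hEh, hext⟩ := exists_extreme p K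
  by_cases h3 : 3 ≤ E.card
  · obtain ⟨m, e, hm1, hcard, heE, hsurj, hcvx⟩ := exists_chain p hinj E h3 hext
    have hweak : ∀ i j l, i ≤ j → j ≤ l → l ≤ m + 1 → 0 ≤ ori (p (e i)) (p (e j)) (p (e l)) := by
      intro i j l hij hjl hl
      rcases hij.lt_or_eq with h1 | rfl
      · rcases hjl.lt_or_eq with h2 | rfl
        · exact (hcvx i j l h1 h2 hl).le
        · rw [ori_self']
      · rw [ori_self'']
    have hctx : Ctx p P K m e := by
      refine ⟨hreg, hbd, hclq, hmx, hm1, fun i hi => hEK (heE i hi), hcvx, ?_, ?_⟩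
      · intro i hi k hk
        refine ori_nonneg_hull ?_ (hEh k hk)
        rintro _ ⟨x, hx, rfl⟩
        obtain ⟨j, hj, rfl⟩ := hsurj x (by exact_mod_cast hx)
        rcases le_total j i with h1 | h1
        · rw [ori_rot (p (e j)) (p (e i)) (p (e (i + 1)))]
          exact hweak j i (i + 1) h1 (by omega) (by omega)
        · rcases h1.eq_or_lt with h2 | h2
          · rw [← h2, ori_self]
          · exact hweak i (i + 1) j (by omega) (by omega) hj
      · intro k hk
        refine ori_nonneg_hull ?_ (hEh k hk)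
        rintro _ ⟨x, hx, rfl⟩
        obtain ⟨j, hj, rfl⟩ := hsurj x (by exact_mod_cast hx)
        rw [← ori_rot (p (e (m + 1))) (p (e 0)) (p (e j))]
        exact hweak 0 j (m + 1) (by omega) hj le_rfl
    refine hctx.der.mono ?_
    have := Finset.card_le_card hEK
    omega
  · refine Der.mono (r := 2) ?_ (by omega)
    refine ⟨E, by omega, fun s hs t ht hst => hK s (hEK hs) t (hEK ht) hst, ?_⟩
    intro x hx _
    by_cases hxE : x ∈ E
    · exact Or.inl hxE
    · right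
      refine ⟨fun t ht => hK t (hEK ht) x hx (fun h => hxE (h ▸ ht)), Set.subset_univ _, ?_⟩
      rw [AC_single (single_of_hull hreg (fun s hs t ht => hclq s (hEK hs) t (hEK ht)) (hEh x hx))]
      exact Der.single _ _

end TH691.VC
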