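import Pool.Agent.H601R2.PP
import Pool.Agent.NPC.Dec
import Pool.Agent.TH691.VC.Complete

/-!
# The algorithm runs in polynomial time
-/

namespace TH691.VC

open Pool.Agent Pool.Agent.NPC

theorem sz_sublist {β : Type} [TEnc β] {l l' : List β} (h : l.Sublist l') : sz l ≤ sz l' := by
  induction h with
  | slnil => exact le_rfl
  | cons a _ ih => simp; omega
  | cons_cons a _ ih => simp; omega

variable {α : Type} [TEnc α]

theorem poly_adjB {M : α → List (List Bool)} {i j : α → ℕ} (hM : NPC.Poly M) (hi : NPC.Poly i)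
    (hj : NPC.Poly j) : NPC.Poly (fun a => adjB (M a) (i a) (j a)) := by
  unfold adjB
  exact NPC.Poly.getD (NPC.Poly.getD hM hi (NPC.Poly.const _)) hj (NPC.Poly.const _)

theorem poly_rng {M : α → List (List Bool)} (hM : NPC.Poly M) :
    NPC.Poly (fun a => List.range (M a).length) := NPC.Poly.range_length hM

theorem poly_nbL {M : α → List (List Bool)} {T : α → List ℕ} (hM : NPC.Poly M) (hT : NPC.Poly T) :
    NPC.Poly (fun a => nbL (M a) (T a)) := by
  classical
  unfold nbL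
  refine PP.filter (r := fun a v => ∀ t ∈ T a, adjB (M a) t v = true) (poly_rng hM) ?_
  refine PP.ball (r := fun (p : α × ℕ) t => adjB (M p.1) t p.2 = true)
    (hT.comp (NPC.Poly.fst NPC.Poly.id)) ?_
  exact PP.bool (poly_adjB (hM.comp (NPC.Poly.fst (NPC.Poly.fst NPC.Poly.id))) (NPC.Poly.snd NPC.Poly.id)
    (NPC.Poly.snd (NPC.Poly.fst NPC.Poly.id)))

theorem poly_comp {M : α → List (List Bool)} {V : α → List ℕ} {x : α → ℕ} (hM : NPC.Poly M)
    (hV : NPC.Poly V) (hx : NPC.Poly x) :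
    NPC.Poly (fun a => comp (V a) (fun u w => ¬ adjB (M a) u w = true) (x a)) := by
  classical
  obtain ⟨q, hq⟩ := hV.sz_le
  refine NPC.Poly.iterLen (l := V) (s := fun a => strt (V a) (x a))
    (F := fun a S => grow (V a) (fun u w => ¬ adjB (M a) u w = true) S) hV ?_ ?_ q ?_
  · unfold strt
    exact PP.filter (r := fun a u => u = x a) hV
      (PP.eq (NPC.Poly.snd NPC.Poly.id) (hx.comp (NPC.Poly.fst NPC.Poly.id)))
  · unfold grow
    refine PP.filter (inst := fun p u => _) (r := fun (p : α × List ℕ) u =>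
      u ∈ p.2 ∨ ∃ w ∈ p.2, ¬ adjB (M p.1) w u = true) (hV.comp (NPC.Poly.fst NPC.Poly.id))
      (PP.or (PP.mem (NPC.Poly.snd NPC.Poly.id) (NPC.Poly.snd (NPC.Poly.fst NPC.Poly.id)))
        (PP.bex (r := fun (p : (α × List ℕ) × ℕ) w => ¬ adjB (M p.1.1) w p.2 = true)
          (NPC.Poly.snd (NPC.Poly.fst NPC.Poly.id)) ?_))
    exact (PP.bool (poly_adjB (hM.comp (NPC.Poly.fst (NPC.Poly.fst (NPC.Poly.fst NPC.Poly.id))))
      (NPC.Poly.snd NPC.Poly.id) (NPC.Poly.snd (NPC.Poly.fst NPC.Poly.id)))).not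
  · intro a k _
    exact (sz_sublist (stage_sub _ k)).trans (hq a)

theorem poly_cmp {M : α → List (List Bool)} {T : α → List ℕ} {x : α → ℕ} (hM : NPC.Poly M)
    (hT : NPC.Poly T) (hx : NPC.Poly x) : NPC.Poly (fun a => cmp (M a) (T a) (x a)) :=
  poly_comp hM (poly_nbL hM hT) hx

theorem poly_comps {M : α → List (List Bool)} {T : α → List ℕ} (hM : NPC.Poly M)
    (hT : NPC.Poly T) : NPC.Poly (fun a => comps (M a) (T a)) :=
  NPC.Poly.map (F := fun a x => cmp (M a) (T a) x) (poly_nbL hM hT)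
    (poly_cmp (hM.comp (NPC.Poly.fst NPC.Poly.id)) (hT.comp (NPC.Poly.fst NPC.Poly.id)) (NPC.Poly.snd NPC.Poly.id))

theorem poly_seqs {V : α → List ℕ} (hV : NPC.Poly V) : ∀ k : ℕ, NPC.Poly (fun a => seqs (V a) k)
  | 0 => NPC.Poly.const _
  | k + 1 => by
    have ih := poly_seqs hV k
    unfold seqs
    refine NPC.Poly.append ih (NPC.Poly.flatMap (F := fun a v => (seqs (V a) k).map (fun l => v :: l))
      hV ?_)
    exact NPC.Poly.map (F := fun (p : α × ℕ) l => p.2 :: l) (ih.comp (NPC.Poly.fst NPC.Poly.id))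
      (NPC.Poly.cons (NPC.Poly.snd (NPC.Poly.fst NPC.Poly.id)) (NPC.Poly.snd NPC.Poly.id))

theorem pp_clqL {M : α → List (List Bool)} {T : α → List ℕ} (hM : NPC.Poly M)
    (hT : NPC.Poly T) : PP (fun a => ClqL (M a) (T a)) := by
  unfold ClqL
  refine PP.ball (r := fun a s => ∀ t ∈ T a, s ≠ t → adjB (M a) s t = true) hT ?_
  refine PP.ball (r := fun (p : α × ℕ) t => p.2 ≠ t → adjB (M p.1) p.2 t = true)
    (hT.comp (NPC.Poly.fst NPC.Poly.id)) ?_
  refine PP.congr (PP.or (PP.eq (f := fun p : (α × ℕ) × ℕ => p.1.2) (g := fun p => p.2)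
    (NPC.Poly.snd (NPC.Poly.fst NPC.Poly.id)) (NPC.Poly.snd NPC.Poly.id))
    (PP.bool (b := fun p : (α × ℕ) × ℕ => adjB (M p.1.1) p.1.2 p.2)
      (poly_adjB (hM.comp (NPC.Poly.fst (NPC.Poly.fst NPC.Poly.id)))
      (NPC.Poly.snd (NPC.Poly.fst NPC.Poly.id)) (NPC.Poly.snd NPC.Poly.id)))) fun p => ?_
  tauto

theorem poly_tups {M : α → List (List Bool)} (hM : NPC.Poly M) : NPC.Poly (fun a => tups (M a)) := by
  classical
  unfold tups
  exact PP.filter (r := fun a T => ClqL (M a) T) (poly_seqs (poly_rng hM) 8)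
    (pp_clqL (hM.comp (NPC.Poly.fst NPC.Poly.id)) (NPC.Poly.snd NPC.Poly.id))

theorem poly_keys {M : α → List (List Bool)} (hM : NPC.Poly M) : NPC.Poly (fun a => keys (M a)) :=
  NPC.Poly.flatMap (F := fun a T => comps (M a) T) (poly_tups hM)
    (poly_comps (hM.comp (NPC.Poly.fst NPC.Poly.id)) (NPC.Poly.snd NPC.Poly.id))

theorem poly_cand {M : α → List (List Bool)} {tab : α → List (List ℕ × List ℕ)}
    {C T : α → List ℕ} (hM : NPC.Poly M) (htab : NPC.Poly tab) (hC : NPC.Poly C) (hT : NPC.Poly T) :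
    NPC.Poly (fun a => cand (M a) (tab a) (C a) (T a)) := by
  classical
  unfold cand
  refine PP.filter (r := fun a v => (v ∈ T a ∧ v ∈ C a) ∨
    ∃ D ∈ comps (M a) (T a), (∀ y ∈ D, y ∈ C a) ∧ ∃ e ∈ tab a, e.1 = D ∧ v ∈ e.2)
    (poly_rng hM) ?_
  refine PP.or (PP.and (PP.mem (NPC.Poly.snd NPC.Poly.id) (hT.comp (NPC.Poly.fst NPC.Poly.id)))
    (PP.mem (NPC.Poly.snd NPC.Poly.id) (hC.comp (NPC.Poly.fst NPC.Poly.id)))) ?_
  refine PP.bex (r := fun (p : α × ℕ) D => (∀ y ∈ D, y ∈ C p.1) ∧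
    ∃ e ∈ tab p.1, e.1 = D ∧ p.2 ∈ e.2)
    (poly_comps (hM.comp (NPC.Poly.fst NPC.Poly.id)) (hT.comp (NPC.Poly.fst NPC.Poly.id))) ?_
  refine PP.and ?_ ?_
  · exact PP.ball (r := fun (p : (α × ℕ) × List ℕ) y => y ∈ C p.1.1) (NPC.Poly.snd NPC.Poly.id)
      (PP.mem (NPC.Poly.snd NPC.Poly.id) (hC.comp (NPC.Poly.fst (NPC.Poly.fst (NPC.Poly.fst NPC.Poly.id)))))
  · refine PP.bex (r := fun (p : (α × ℕ) × List ℕ) e => e.1 = p.2 ∧ p.1.2 ∈ e.2)
      (htab.comp (NPC.Poly.fst (NPC.Poly.fst NPC.Poly.id))) ?_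
    exact PP.and (PP.eq (NPC.Poly.fst (NPC.Poly.snd NPC.Poly.id)) (NPC.Poly.snd (NPC.Poly.fst NPC.Poly.id)))
      (PP.mem (NPC.Poly.snd (NPC.Poly.fst (NPC.Poly.fst NPC.Poly.id))) (NPC.Poly.snd (NPC.Poly.snd NPC.Poly.id)))

theorem poly_longer : NPC.Poly (fun p : List ℕ × List ℕ => longer p.1 p.2) := by
  unfold longer
  exact NPC.Poly.ite (NPC.Poly.decide_lt (NPC.Poly.length (NPC.Poly.fst NPC.Poly.id)) (NPC.Poly.length (NPC.Poly.snd NPC.Poly.id)))
    (NPC.Poly.snd NPC.Poly.id) (NPC.Poly.fst NPC.Poly.id)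

theorem poly_best {M : α → List (List Bool)} {tab : α → List (List ℕ × List ℕ)}
    {C : α → List ℕ} (hM : NPC.Poly M) (htab : NPC.Poly tab) (hC : NPC.Poly C) :
    NPC.Poly (fun a => best (M a) (tab a) (C a)) := by
  have h1 : NPC.Poly (fun a => (tups (M a)).map (fun T => cand (M a) (tab a) (C a) T)) :=
    NPC.Poly.map (F := fun a T => cand (M a) (tab a) (C a) T) (poly_tups hM)
      (poly_cand (hM.comp (NPC.Poly.fst NPC.Poly.id)) (htab.comp (NPC.Poly.fst NPC.Poly.id))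
        (hC.comp (NPC.Poly.fst NPC.Poly.id)) (NPC.Poly.snd NPC.Poly.id))
  obtain ⟨q, hq⟩ := h1.sz_le
  unfold best
  refine NPC.Poly.foldl (s := fun _ => ([] : List ℕ)) (F := fun _ s b => longer s b) h1 (NPC.Poly.const _)
    (poly_longer.comp (NPC.Poly.pair (NPC.Poly.fst (NPC.Poly.snd NPC.Poly.id)) (NPC.Poly.snd (NPC.Poly.snd NPC.Poly.id))))
    (q + 1) ?_
  intro a k _
  rcases (foldl_longer ((((tups (M a)).map (fun T => cand (M a) (tab a) (C a) T)).take k)) []).1
    with h | h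
  · change sz (List.foldl longer [] _) ≤ _
    rw [h]
    simp
  · change sz (List.foldl longer [] _) ≤ _
    have h2 := sz_le_of_mem (List.mem_of_mem_take h)
    have h3 := hq a
    simp only [Polynomial.eval_add, Polynomial.eval_one]
    omega

theorem poly_stp {M : α → List (List Bool)} {tab : α → List (List ℕ × List ℕ)} (hM : NPC.Poly M)
    (htab : NPC.Poly tab) : NPC.Poly (fun a => stp (M a) (tab a)) := by
  unfold stp
  refine NPC.Poly.map (F := fun a (e : List ℕ × List ℕ) => (e.1, best (M a) (tab a) e.1)) htab ?_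
  refine NPC.Poly.pair (NPC.Poly.fst (NPC.Poly.snd NPC.Poly.id)) ?_
  exact poly_best (hM.comp (NPC.Poly.fst NPC.Poly.id)) (htab.comp (NPC.Poly.fst NPC.Poly.id))
    (NPC.Poly.fst (NPC.Poly.snd NPC.Poly.id))

theorem sz_tabr (M : List (List Bool)) (r : ℕ) :
    sz (tabr M r) ≤ sz (keys M) * (sz (keys M) + sz (List.range M.length) + 2) + 1 := by
  rw [tabr_eq]
  refine (sz_le_length_mul _ (sz (keys M) + sz (List.range M.length) + 1) ?_).trans ?_
  · intro e he
    obtain ⟨C, hC, rfl⟩ := List.mem_map.1 he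
    rw [sz_pair]
    have h1 := sz_le_of_mem hC
    have h2 := sz_sublist (val_sub M r C)
    omega
  · rw [List.length_map]
    have h1 := length_lt_sz (keys M)
    exact Nat.add_le_add_right (Nat.mul_le_mul_right _ h1.le) 1

theorem poly_tabr : NPC.Poly (fun M : List (List Bool) => tabr M (M.length + 1)) := by
  obtain ⟨q1, hq1⟩ := (poly_keys (α := List (List Bool)) (M := fun M => M) NPC.Poly.id).sz_le
  obtain ⟨q2, hq2⟩ := (poly_rng (α := List (List Bool)) (M := fun M => M) NPC.Poly.id).sz_le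
  have h0 : NPC.Poly (fun M : List (List Bool) => tab0 M) :=
    NPC.Poly.map (F := fun _ C => (C, ([] : List ℕ))) (poly_keys NPC.Poly.id)
      (NPC.Poly.pair (NPC.Poly.snd NPC.Poly.id) (NPC.Poly.const _))
  have h1 : NPC.Poly (fun M : List (List Bool) =>
      (stp M)^[(([] : List Bool) :: M).length] (tab0 M)) := by
    refine NPC.Poly.iterLen (l := fun M : List (List Bool) => ([] : List Bool) :: M)
      (s := fun M => tab0 M) (F := fun M tab => stp M tab) (NPC.Poly.cons (NPC.Poly.const _) NPC.Poly.id) h0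
      (poly_stp (NPC.Poly.fst NPC.Poly.id) (NPC.Poly.snd NPC.Poly.id)) (q1 * (q1 + q2 + 2) + 1) ?_
    intro M k _
    refine (sz_tabr M k).trans ?_
    have e1 := hq1 M
    have e2 := hq2 M
    simp only [Polynomial.eval_add, Polynomial.eval_mul, Polynomial.eval_one,
      Polynomial.eval_ofNat]
    exact Nat.add_le_add_right (Nat.mul_le_mul e1 (by omega)) 1
  exact h1

/-- The algorithm runs in polynomial time. -/
theorem poly_alg : NPC.Poly alg :=
  poly_best NPC.Poly.id poly_tabr (poly_rng NPC.Poly.id)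

/-- The algorithm as a function on bit strings. -/
theorem exists_polyTime : ∃ f : List Bool → List Bool, PolyTime f ∧
    ∀ M : List (List Bool), f (bits M) = bits (alg M) := by
  refine ⟨_, polyTime_opt (NPC.Poly.optMap (o := unbits (List (List Bool))) (f := fun _ M => alg M)
    poly_unbits (poly_alg.comp (NPC.Poly.snd NPC.Poly.id))), fun M => ?_⟩
  simp [unbits_bits]

end TH691.VC
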