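import Pool.Agent.H612.BB.T_EXT
import Pool.Agent.H612.BB.T_TRI
import Pool.Agent.TH691.VC.Sweep2
import Pool.Agent.TH691.VC.Time

/-!
# Maximum cliques of visibility graphs in polynomial time
-/

namespace TH691.VC

open Vis124 Pool.Agent Pool.Agent.NPC

/-- The adjacency matrix of a graph with vertices `0, …, n - 1`, row by row. -/
def adjMatrix {n : ℕ} (G : SimpleGraph (Fin n)) [DecidableRel G.Adj] : List (List Bool) :=
  List.ofFn fun i : Fin n => List.ofFn fun j : Fin n => decide (G.Adj i j)

/-- A graph is a visibility graph if it is isomorphic to the visibility graph of some simple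
polygon. -/
def IsVisibilityGraph {n : ℕ} (G : SimpleGraph (Fin n)) : Prop :=
  ∃ (m : ℕ) (v : Fin m → ℝ × ℝ) (P : Set (ℝ × ℝ)), IsSimplePolygon v P ∧
    Nonempty (G ≃g visGraph v P)

/-- The visibility graph of finitely many boundary points of a compact set `P` in the plane whose
complement is connected: the vertices are different points of the boundary of `P`, and two of them
are adjacent iff the closed segment joining them lies in `P`. -/
def IsBoundaryVisibilityGraph {n : ℕ} (G : SimpleGraph (Fin n)) : Prop :=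
  ∃ (P : Set (ℝ × ℝ)) (v : Fin n → ℝ × ℝ), IsCompact P ∧ IsPreconnected Pᶜ ∧
    Function.Injective v ∧ (∀ i, v i ∈ frontier P) ∧
    ∀ i j, G.Adj i j ↔ i ≠ j ∧ segment ℝ (v i) (v j) ⊆ P

theorem rep_adjMatrix {n : ℕ} (G : SimpleGraph (Fin n)) [DecidableRel G.Adj] :
    Rep G (adjMatrix G) := by
  refine ⟨by simp [adjMatrix], ?_⟩
  intro i j
  unfold adjB adjMatrix
  simp [List.getD_eq_getElem?_getD]

theorem isBoundary_of_vis {n : ℕ} {G : SimpleGraph (Fin n)} (h : IsVisibilityGraph G) :
    IsBoundaryVisibilityGraph G := by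
  obtain ⟨m, v, P, hP, ⟨φ⟩⟩ := h
  refine ⟨P, fun i => v (φ i), hP.compact, H612BB.EXT_holds m v P hP,
    hP.injective.comp φ.injective, ?_, ?_⟩
  · intro i
    rw [hP.boundary]
    exact Set.mem_iUnion.2 ⟨φ i, left_mem_segment _ _ _⟩
  · intro i j
    rw [← φ.map_adj_iff]
    change (φ i ≠ φ j ∧ _) ↔ _
    rw [φ.injective.ne_iff]

theorem correct_boundary {n : ℕ} (G : SimpleGraph (Fin n)) [DecidableRel G.Adj]
    (h : IsBoundaryVisibilityGraph G) : ∃ K : Finset (Fin n), G.IsMaximumClique K ∧
      alg (adjMatrix G) = (K.sort (· ≤ ·)).map (fun i : Fin n => (i : ℕ)) := by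
  apply (rep_adjMatrix G).correct
  intro K hK hmax
  obtain ⟨P, v, hPc, hPP, hinj, hfr, hadj⟩ := h
  have hG : G.Adj = vadj v P := by
    funext i j
    exact propext (hadj i j)
  have hreg : Reg P := H612BB.TRI_holds P hPc hPP
  rw [hG]
  apply geo_main hreg hinj
  · intro i
    exact hPc.isClosed.frontier_subset (hfr i)
  · intro i hi
    exact (hfr i).2 hi
  · intro s hs t ht hst
    exact (hadj s t).1 (hK hs ht hst)
  · intro w hw
    exact hmax w fun k hk hkw => (hadj k w).2 (hw k hk hkw)

end TH691.VC
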