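import Pool.Agent.H124R2.Vis.Sector

/-!
# Plane geometry for visibility graphs

`Reg P`: the set `P` contains every triangle whose sides it contains.
-/

namespace TH691.VC

open Vis124 (cr)

/-- points of the plane -/
abbrev Pt : Type := ℝ × ℝ

/-- twice the signed area of a triangle -/
def ori (A B C : Pt) : ℝ := (B.1 - A.1) * (C.2 - A.2) - (B.2 - A.2) * (C.1 - A.1)

/-- the set contains every triangle whose sides it contains -/
def Reg (P : Set Pt) : Prop := ∀ A B C : Pt, segment ℝ A B ⊆ P → segment ℝ A C ⊆ P →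
  segment ℝ B C ⊆ P → ∀ X ∈ segment ℝ B C, segment ℝ A X ⊆ P

theorem ori_rot (A B C : Pt) : ori B C A = ori A B C := by unfold ori; ring

theorem ori_swap (A B C : Pt) : ori A C B = - ori A B C := by unfold ori; ring

theorem ori_self (A B : Pt) : ori A B A = 0 := by unfold ori; ring

theorem ori_self' (A B : Pt) : ori A B B = 0 := by unfold ori; ring

theorem ori_self'' (A B : Pt) : ori A A B = 0 := by unfold ori; ring

theorem ori_line (A B X Y : Pt) (s : ℝ) :
    ori A B (X + s • (Y - X)) = (1 - s) * ori A B X + s * ori A B Y := by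
  unfold ori
  simp only [Prod.fst_add, Prod.snd_add, Prod.smul_fst, Prod.smul_snd, Prod.fst_sub, Prod.snd_sub,
    smul_eq_mul]
  ring

theorem mem_seg {A B z : Pt} : z ∈ segment ℝ A B ↔ ∃ t : ℝ, 0 ≤ t ∧ t ≤ 1 ∧ z = A + t • (B - A) := by
  rw [segment_eq_image']
  constructor
  · rintro ⟨t, ⟨h0, h1⟩, rfl⟩
    exact ⟨t, h0, h1, rfl⟩
  · rintro ⟨t, h0, h1, rfl⟩
    exact ⟨t, ⟨h0, h1⟩, rfl⟩

theorem ori_nonneg_seg {A B X Y z : Pt} (hX : 0 ≤ ori A B X) (hY : 0 ≤ ori A B Y)
    (hz : z ∈ segment ℝ X Y) : 0 ≤ ori A B z := by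
  obtain ⟨t, h0, h1, rfl⟩ := mem_seg.1 hz
  rw [ori_line]
  have := mul_nonneg (sub_nonneg.2 h1) hX
  have := mul_nonneg h0 hY
  linarith

theorem convex_ori (A B : Pt) : Convex ℝ {x : Pt | 0 ≤ ori A B x} := by
  rw [convex_iff_segment_subset]
  intro x hx y hy z hz
  exact ori_nonneg_seg hx hy hz

theorem ori_nonneg_hull {A B : Pt} {S : Set Pt} (h : ∀ x ∈ S, 0 ≤ ori A B x) {z : Pt}
    (hz : z ∈ convexHull ℝ S) : 0 ≤ ori A B z :=
  convexHull_min (fun x hx => h x hx) (convex_ori A B) hz

/-- a zero of an affine function on a segment -/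
theorem exists_cross {A B w w' : Pt} (h1 : ori A B w ≤ 0) (h2 : 0 ≤ ori A B w') :
    ∃ X ∈ segment ℝ w w', ori A B X = 0 := by
  rcases h1.lt_or_eq with h | h
  · have hd : 0 < ori A B w' - ori A B w := by linarith
    refine ⟨w + (- ori A B w / (ori A B w' - ori A B w)) • (w' - w), ?_, ?_⟩
    · rw [mem_seg]
      refine ⟨_, div_nonneg (by linarith) hd.le, ?_, rfl⟩
      rw [div_le_one hd]; linarith
    · rw [ori_line]
      field_simp
      ring
  · exact ⟨w, left_mem_segment _ _ _, h⟩

/-- points on a line -/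
theorem on_line {M M' X : Pt} (hM : M ≠ M') (h : ori M M' X = 0) :
    ∃ s : ℝ, X = M + s • (M' - M) := by
  have hw : M' - M ≠ 0 := sub_ne_zero.2 (Ne.symm hM)
  obtain ⟨c, hc⟩ := Vis124.parallel (w := M' - M) (u := X - M) hw (by
    unfold cr; simp only [Prod.fst_sub, Prod.snd_sub]; unfold ori at h; linarith)
  exact ⟨c, by rw [← hc]; abel⟩

theorem seg_split {A B Y z : Pt} (hY : Y ∈ segment ℝ A B) (hz : z ∈ segment ℝ A B) :
    z ∈ segment ℝ A Y ∨ z ∈ segment ℝ Y B := by
  obtain ⟨y, hy0, hy1, rfl⟩ := mem_seg.1 hY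
  obtain ⟨t, ht0, ht1, rfl⟩ := mem_seg.1 hz
  rcases le_total t y with h | h
  · left
    rw [mem_seg]
    rcases hy0.lt_or_eq with h0 | h0
    · refine ⟨t / y, div_nonneg ht0 hy0, by rw [div_le_one h0]; exact h, ?_⟩
      rw [add_sub_cancel_left, smul_smul, div_mul_cancel₀ _ h0.ne']
    · refine ⟨0, le_rfl, zero_le_one, ?_⟩
      have : t = 0 := by linarith
      rw [this]; simp
  · right
    rw [mem_seg]
    rcases hy1.lt_or_eq with h0 | h0
    · have h1 : 0 < 1 - y := by linarith
      refine ⟨(t - y) / (1 - y), div_nonneg (by linarith) h1.le,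
        by rw [div_le_one h1]; linarith, ?_⟩
      have e : B - (A + y • (B - A)) = (1 - y) • (B - A) := by
        rw [sub_smul, one_smul]; abel
      rw [e, smul_smul, div_mul_cancel₀ _ h1.ne', add_assoc, ← add_smul]
      congr 2; ring
    · refine ⟨0, le_rfl, zero_le_one, ?_⟩
      have : t = 1 := by linarith
      rw [this, h0]; simp

theorem sees_split {P : Set Pt} {A B Y : Pt} (hY : Y ∈ segment ℝ A B) (h1 : segment ℝ A Y ⊆ P)
    (h2 : segment ℝ Y B ⊆ P) : segment ℝ A B ⊆ P := by
  intro z hz
  rcases seg_split hY hz with h | h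
  · exact h1 h
  · exact h2 h

theorem sees_symm {P : Set Pt} {A B : Pt} (h : segment ℝ A B ⊆ P) : segment ℝ B A ⊆ P := by
  rw [segment_symm]; exact h

/-- a point that sees a finite set of mutually visible points sees its convex hull -/
theorem sees_hull {P : Set Pt} (hP : Reg P) (S : Finset Pt) : ∀ a : Pt,
    (∀ s ∈ S, segment ℝ a s ⊆ P) → (∀ s ∈ S, ∀ t ∈ S, segment ℝ s t ⊆ P) →
    ∀ y ∈ convexHull ℝ (S : Set Pt), segment ℝ a y ⊆ P := by
  classical
  induction S using Finset.induction_on with
  | empty => intro a _ _ y hy; simp at hy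
  | insert b S hb ih =>
    intro a ha hS y hy
    have h1 : ∀ s ∈ S, segment ℝ a s ⊆ P := fun s hs => ha s (Finset.mem_insert_of_mem hs)
    have h2 : ∀ s ∈ S, ∀ t ∈ S, segment ℝ s t ⊆ P := fun s hs t ht =>
      hS s (Finset.mem_insert_of_mem hs) t (Finset.mem_insert_of_mem ht)
    have h3 : ∀ s ∈ S, segment ℝ b s ⊆ P := fun s hs =>
      hS b (Finset.mem_insert_self _ _) s (Finset.mem_insert_of_mem hs)
    rcases S.eq_empty_or_nonempty with h0 | h0
    · subst h0
      simp only [insert_empty_eq, Finset.coe_singleton, convexHull_singleton,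
        Set.mem_singleton_iff] at hy
      rw [hy]
      exact ha b (Finset.mem_insert_self _ _)
    · rw [Finset.coe_insert, convexHull_insert (by exact_mod_cast h0), mem_convexJoin] at hy
      obtain ⟨b', hb', z, hz, hyz⟩ := hy
      rw [Set.mem_singleton_iff] at hb'
      subst hb'
      exact hP a b' z (ha b' (Finset.mem_insert_self _ _)) (ih a h1 h2 z hz) (ih b' h3 h2 z hz) y hyz

/-- mutually visible points: the convex hull is in the region -/
theorem hull_sub {P : Set Pt} (hP : Reg P) (S : Finset Pt)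
    (hS : ∀ s ∈ S, ∀ t ∈ S, segment ℝ s t ⊆ P) : convexHull ℝ (S : Set Pt) ⊆ P := by
  intro y hy
  have hne : S.Nonempty := by
    rw [Finset.nonempty_iff_ne_empty]
    rintro rfl
    simp at hy
  obtain ⟨a, ha⟩ := hne
  exact sees_hull hP S a (fun s hs => hS a ha s hs) hS y hy (right_mem_segment _ _ _)

theorem sees_hull_hull {P : Set Pt} (hP : Reg P) (S : Finset Pt)
    (hS : ∀ s ∈ S, ∀ t ∈ S, segment ℝ s t ⊆ P) {x y : Pt} (hx : x ∈ convexHull ℝ (S : Set Pt))
    (hy : y ∈ convexHull ℝ (S : Set Pt)) : segment ℝ x y ⊆ P :=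
  ((convex_convexHull ℝ _).segment_subset hx hy).trans (hull_sub hP S hS)

/-- barycentric coordinates -/
theorem mem_tri {A B C x : Pt} (h : 0 < ori A B C) (h1 : 0 ≤ ori A B x) (h2 : 0 ≤ ori B C x)
    (h3 : 0 ≤ ori C A x) : x ∈ convexHull ℝ ({A, B, C} : Set Pt) := by
  have hsum : ori B C x / ori A B C + ori C A x / ori A B C + ori A B x / ori A B C = 1 := by
    rw [← add_div, ← add_div, div_eq_one_iff_eq h.ne']
    unfold ori; ring
  have hA : A ∈ convexHull ℝ ({A, B, C} : Set Pt) := subset_convexHull _ _ (by simp)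
  have hB : B ∈ convexHull ℝ ({A, B, C} : Set Pt) := subset_convexHull _ _ (by simp)
  have hC : C ∈ convexHull ℝ ({A, B, C} : Set Pt) := subset_convexHull _ _ (by simp)
  have hx : x = (ori B C x / ori A B C) • A + (ori C A x / ori A B C) • B +
      (ori A B x / ori A B C) • C := by
    have h0 := h.ne'
    apply Prod.ext
    · simp only [Prod.fst_add, Prod.smul_fst, smul_eq_mul]
      field_simp
      unfold ori; ring
    · simp only [Prod.snd_add, Prod.smul_snd, smul_eq_mul]
      field_simp
      unfold ori; ring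
  rw [hx]
  have hconv := convex_convexHull ℝ ({A, B, C} : Set Pt)
  have key := hconv.sum_mem (t := Finset.univ) (w := ![ori B C x / ori A B C,
    ori C A x / ori A B C, ori A B x / ori A B C]) (z := ![A, B, C]) (by
      intro i _
      fin_cases i
      · exact div_nonneg h2 h.le
      · exact div_nonneg h3 h.le
      · exact div_nonneg h1 h.le) (by simpa [Fin.sum_univ_three] using hsum) (by
      intro i _
      fin_cases i
      · exact hA
      · exact hB
      · exact hC)
  simpa [Fin.sum_univ_three] using key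

theorem sees_self_of {P : Set Pt} {A B : Pt} (h : segment ℝ A B ⊆ P) : segment ℝ A A ⊆ P := by
  rw [segment_same, Set.singleton_subset_iff]
  exact h (left_mem_segment _ _ _)

/-- points strictly inside a triangle with sides in the region are interior points -/
theorem interior_of_tri {P : Set Pt} (hP : Reg P) {A B C x : Pt} (hAB : segment ℝ A B ⊆ P)
    (hBC : segment ℝ B C ⊆ P) (hCA : segment ℝ C A ⊆ P) (h1 : 0 < ori A B x) (h2 : 0 < ori B C x)
    (h3 : 0 < ori C A x) : x ∈ interior P := by
  classical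
  rw [mem_interior]
  refine ⟨{x | 0 < ori A B x ∧ 0 < ori B C x ∧ 0 < ori C A x}, ?_, ?_, ⟨h1, h2, h3⟩⟩
  · rintro y ⟨g1, g2, g3⟩
    have h : 0 < ori A B C := by
      have : ori A B C = ori A B y + ori B C y + ori C A y := by unfold ori; ring
      rw [this]; linarith
    have hy := mem_tri h g1.le g2.le g3.le
    have := hull_sub hP ({A, B, C} : Finset Pt) (by
      intro s hs t ht
      simp only [Finset.mem_insert, Finset.mem_singleton] at hs ht
      rcases hs with rfl | rfl | rfl <;> rcases ht with rfl | rfl | rfl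
      · exact sees_self_of hAB
      · exact hAB
      · exact sees_symm hCA
      · exact sees_symm hAB
      · exact sees_self_of hBC
      · exact hBC
      · exact hCA
      · exact sees_symm hBC
      · exact sees_self_of hCA)
    apply this
    simpa using hy
  · have hc : ∀ A B : Pt, Continuous (fun x => ori A B x) := by
      intro A B
      unfold ori
      fun_prop
    apply IsOpen.inter
    · exact isOpen_lt continuous_const (hc A B)
    apply IsOpen.inter
    · exact isOpen_lt continuous_const (hc B C)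
    · exact isOpen_lt continuous_const (hc C A)

/-- A point beyond an edge of a convex polygon that sees both ends and both neighbours sees
everything. -/
theorem beyond_edge {P : Set Pt} (hP : Reg P) {am a b bp w k : Pt}
    (ha : a ∉ interior P) (hb : b ∉ interior P)
    (h1 : 0 < ori am a b) (h2 : 0 < ori a b bp) (hw : ori a b w < 0)
    (sab : segment ℝ a b ⊆ P) (samb : segment ℝ am b ⊆ P) (sabp : segment ℝ a bp ⊆ P)
    (wam : segment ℝ w am ⊆ P) (wa : segment ℝ w a ⊆ P) (wb : segment ℝ w b ⊆ P)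
    (wbp : segment ℝ w bp ⊆ P)
    (k1 : 0 ≤ ori am a k) (k2 : 0 ≤ ori a b k) (k3 : 0 ≤ ori b bp k)
    (ka : segment ℝ k a ⊆ P) (kb : segment ℝ k b ⊆ P) : segment ℝ w k ⊆ P := by
  have w3 : 0 ≤ ori b bp w := by
    by_contra hlt
    push Not at hlt
    apply hb
    apply interior_of_tri hP (A := a) (B := w) (C := bp) (sees_symm wa) wbp (sees_symm sabp)
    · have := ori_swap a w b; linarith
    · have := ori_rot w bp b; have := ori_rot w b bp; have := ori_swap w b bp; linarith
    · have := ori_rot bp a b; linarith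
  have w1 : 0 ≤ ori am a w := by
    by_contra hlt
    push Not at hlt
    apply ha
    apply interior_of_tri hP (A := am) (B := w) (C := b) (sees_symm wam) wb (sees_symm samb)
    · have := ori_swap am w a; linarith
    · have := ori_rot w b a; have := ori_rot w a b; have := ori_swap w b a; linarith
    · have := ori_rot b am a; linarith
  obtain ⟨Y, hY, hY0⟩ := exists_cross hw.le k2
  have hab : a ≠ b := by
    rintro rfl
    have := ori_self'' a bp
    linarith
  obtain ⟨s, hs⟩ := on_line hab hY0
  have y3 := ori_nonneg_seg w3 k3 hY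
  have y1 := ori_nonneg_seg w1 k1 hY
  have hYab : Y ∈ segment ℝ a b := by
    rw [mem_seg]
    refine ⟨s, ?_, ?_, hs⟩
    · rw [hs, ori_line, ori_self', mul_zero, zero_add] at y1
      exact nonneg_of_mul_nonneg_left y1 h1
    · rw [hs, ori_line, ori_self, mul_zero, add_zero] at y3
      have h4 : ori b bp a = ori a b bp := ori_rot a b bp
      rw [h4] at y3
      have := nonneg_of_mul_nonneg_left y3 h2
      linarith
  exact sees_split hY (hP w a b wa wb sab Y hYab) (sees_symm (hP k a b ka kb sab Y hYab))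

/-- two points on different sides of a chord between two edges see each other -/
theorem cross_chord {P : Set Pt} (hP : Reg P) {a b c d M M' w w' : Pt}
    (hM : ori a b M = 0) (hM' : 0 < ori a b M') (hN : ori c d M' = 0) (hN' : 0 < ori c d M)
    (sMM : segment ℝ M M' ⊆ P)
    (wM : segment ℝ w M ⊆ P) (wM' : segment ℝ w M' ⊆ P) (w'M : segment ℝ w' M ⊆ P)
    (w'M' : segment ℝ w' M' ⊆ P)
    (w1 : 0 ≤ ori a b w) (w2 : 0 ≤ ori c d w) (w1' : 0 ≤ ori a b w') (w2' : 0 ≤ ori c d w')
    (h1 : ori M M' w ≤ 0) (h2 : 0 ≤ ori M M' w') : segment ℝ w w' ⊆ P := by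
  obtain ⟨X, hX, hX0⟩ := exists_cross h1 h2
  have hne : M ≠ M' := by
    rintro rfl; linarith
  obtain ⟨s, hs⟩ := on_line hne hX0
  have x1 := ori_nonneg_seg w1 w1' hX
  have x2 := ori_nonneg_seg w2 w2' hX
  have hXM : X ∈ segment ℝ M M' := by
    rw [mem_seg]
    refine ⟨s, ?_, ?_, hs⟩
    · rw [hs, ori_line, hM, mul_zero, zero_add] at x1
      exact nonneg_of_mul_nonneg_left x1 hM'
    · rw [hs, ori_line, hN, mul_zero, add_zero] at x2
      have := nonneg_of_mul_nonneg_left x2 hN'
      linarith
  exact sees_split hX (hP w M M' wM wM' sMM X hXM) (sees_symm (hP w' M M' w'M w'M' sMM X hXM))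

end TH691.VC
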