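import Pool.Agent.TH691.VC.Chain
import Pool.Agent.TH691.VC.Comb

/-!
# The sweep along the hull of a maximal clique
-/

namespace TH691.VC

variable {ι : Type} [DecidableEq ι]

/-- visibility inside `P` of different points -/
def vadj (p : ι → Pt) (P : Set Pt) (i j : ι) : Prop := i ≠ j ∧ segment ℝ (p i) (p j) ⊆ P

theorem vadj_symm {p : ι → Pt} {P : Set Pt} (a b : ι) (h : vadj p P a b) : vadj p P b a :=
  ⟨h.1.symm, sees_symm h.2⟩

/-- the midpoint -/
noncomputable def mid (A B : Pt) : Pt := A + (1 / 2 : ℝ) • (B - A)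

theorem mid_mem (A B : Pt) : mid A B ∈ segment ℝ A B :=
  mem_seg.2 ⟨1 / 2, by norm_num, by norm_num, rfl⟩

theorem ori_mid (A B X Y : Pt) : 2 * ori A B (mid X Y) = ori A B X + ori A B Y := by
  unfold mid
  rw [ori_line]; ring

theorem ori_mid_mid (a b c d x : Pt) : 4 * ori (mid a b) (mid c d) x =
    ori a c x + ori a d x + ori b c x + ori b d x := by
  unfold mid ori
  simp only [Prod.fst_add, Prod.snd_add, Prod.smul_fst, Prod.smul_snd, Prod.fst_sub, Prod.snd_sub,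
    smul_eq_mul]
  ring

theorem ori_mid_right (a b x : Pt) : 2 * ori (mid a b) b x = ori a b x := by
  unfold mid ori
  simp only [Prod.fst_add, Prod.snd_add, Prod.smul_fst, Prod.smul_snd, Prod.fst_sub, Prod.snd_sub,
    smul_eq_mul]
  ring

theorem ori_left_mid (a b x : Pt) : 2 * ori a (mid a b) x = ori a b x := by
  unfold mid ori
  simp only [Prod.fst_add, Prod.snd_add, Prod.smul_fst, Prod.smul_snd, Prod.fst_sub, Prod.snd_sub,
    smul_eq_mul]
  ring

theorem ori_flip (A B C : Pt) : ori B A C = - ori A B C := by unfold ori; ring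

/-- everything about a maximal clique `K` with hull vertices `e 0, …, e (m + 1)` -/
structure Ctx (p : ι → Pt) (P : Set Pt) (K : Finset ι) (m : ℕ) (e : ℕ → ι) : Prop where
  reg : Reg P
  bd : ∀ i, p i ∉ interior P
  clq : ∀ s ∈ K, ∀ t ∈ K, segment ℝ (p s) (p t) ⊆ P
  mx : ∀ w, (∀ k ∈ K, segment ℝ (p w) (p k) ⊆ P) → w ∈ K
  m1 : 1 ≤ m
  eK : ∀ i, i ≤ m + 1 → e i ∈ K
  cvx : ∀ i j l, i < j → j < l → l ≤ m + 1 → 0 < ori (p (e i)) (p (e j)) (p (e l))
  hE : ∀ i, i ≤ m → ∀ k ∈ K, 0 ≤ ori (p (e i)) (p (e (i + 1))) (p k)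
  hF : ∀ k ∈ K, 0 ≤ ori (p (e (m + 1))) (p (e 0)) (p k)

/-- the at most eight vertices around two hull edges -/
def TT (m : ℕ) (e : ℕ → ι) (i : ℕ) : Finset ι :=
  [e (i - 1), e i, e (i + 1), e (min (i + 2) (m + 1)), e m, e (m + 1), e 0, e 1].toFinset

theorem TT_card (m : ℕ) (e : ℕ → ι) (i : ℕ) : (TT m e i).card ≤ 8 := List.toFinset_card_le _

theorem mem_TT {m : ℕ} {e : ℕ → ι} {i : ℕ} {t : ι} : t ∈ TT m e i ↔ t = e (i - 1) ∨ t = e i ∨
    t = e (i + 1) ∨ t = e (min (i + 2) (m + 1)) ∨ t = e m ∨ t = e (m + 1) ∨ t = e 0 ∨ t = e 1 := by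
  simp [TT]

theorem TT_p (m : ℕ) (e : ℕ → ι) (i : ℕ) : e (i - 1) ∈ TT m e i := by simp [TT]
theorem TT_i (m : ℕ) (e : ℕ → ι) (i : ℕ) : e i ∈ TT m e i := by simp [TT]
theorem TT_s (m : ℕ) (e : ℕ → ι) (i : ℕ) : e (i + 1) ∈ TT m e i := by simp [TT]
theorem TT_q (m : ℕ) (e : ℕ → ι) (i : ℕ) : e (min (i + 2) (m + 1)) ∈ TT m e i := by simp [TT]
theorem TT_m (m : ℕ) (e : ℕ → ι) (i : ℕ) : e m ∈ TT m e i := by simp [TT]
theorem TT_m1 (m : ℕ) (e : ℕ → ι) (i : ℕ) : e (m + 1) ∈ TT m e i := by simp [TT]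
theorem TT_0 (m : ℕ) (e : ℕ → ι) (i : ℕ) : e 0 ∈ TT m e i := by simp [TT]
theorem TT_1 (m : ℕ) (e : ℕ → ι) (i : ℕ) : e 1 ∈ TT m e i := by simp [TT]

/-- a point in the hull of mutually visible vertices sees what they all see -/
theorem single_of_hull {p : ι → Pt} {P : Set Pt} (hP : Reg P) {T : Finset ι}
    (hT : ∀ s ∈ T, ∀ t ∈ T, segment ℝ (p s) (p t) ⊆ P) {x : ι}
    (hx : p x ∈ convexHull ℝ (p '' (T : Set ι))) : ∀ y ∈ N (vadj p P) T, y ≠ x →
      vadj p P x y := by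
  intro y hy hyx
  refine ⟨hyx.symm, sees_symm ?_⟩
  apply sees_hull hP (T.image p) (p y)
  · intro s hs
    obtain ⟨t, ht, rfl⟩ := Finset.mem_image.1 hs
    exact sees_symm (hy t ht).2
  · intro s hs t ht
    obtain ⟨s', hs', rfl⟩ := Finset.mem_image.1 hs
    obtain ⟨t', ht', rfl⟩ := Finset.mem_image.1 ht
    exact hT s' hs' t' ht'
  · rwa [Finset.coe_image]

section
variable {p : ι → Pt} {P : Set Pt} {K : Finset ι} {m : ℕ} {e : ℕ → ι} (h : Ctx p P K m e)
include h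

theorem Ctx.TT_sub {i : ℕ} (hi : i ≤ m) {t : ι} (ht : t ∈ TT m e i) : t ∈ K := by
  rw [mem_TT] at ht
  have := h.m1
  rcases ht with rfl | rfl | rfl | rfl | rfl | rfl | rfl | rfl <;> apply h.eK <;> omega

theorem Ctx.weak {i j l : ℕ} (hij : i ≤ j) (hjl : j ≤ l) (hl : l ≤ m + 1) :
    0 ≤ ori (p (e i)) (p (e j)) (p (e l)) := by
  rcases hij.lt_or_eq with h1 | rfl
  · rcases hjl.lt_or_eq with h2 | rfl
    · exact (h.cvx i j l h1 h2 hl).le
    · rw [ori_self']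
  · rw [ori_self'']

theorem Ctx.no_beyond {am a b bp w : ι} (haK : a ∈ K) (hbK : b ∈ K) (hamK : am ∈ K)
    (hbpK : bp ∈ K) (h1 : ∀ k ∈ K, 0 ≤ ori (p am) (p a) (p k))
    (h2 : ∀ k ∈ K, 0 ≤ ori (p a) (p b) (p k)) (h3 : ∀ k ∈ K, 0 ≤ ori (p b) (p bp) (p k))
    (s1 : 0 < ori (p am) (p a) (p b)) (s2 : 0 < ori (p a) (p b) (p bp))
    (wam : vadj p P am w) (wa : vadj p P a w) (wb : vadj p P b w) (wbp : vadj p P bp w) :
    0 ≤ ori (p a) (p b) (p w) := by
  by_contra hlt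
  push Not at hlt
  have hw : w ∈ K := by
    apply h.mx
    intro k hk
    exact beyond_edge h.reg (h.bd a) (h.bd b) s1 s2 hlt (h.clq a haK b hbK) (h.clq am hamK b hbK)
      (h.clq a haK bp hbpK) (sees_symm wam.2) (sees_symm wa.2) (sees_symm wb.2) (sees_symm wbp.2)
      (h1 k hk) (h2 k hk) (h3 k hk) (h.clq k hk a haK) (h.clq k hk b hbK)
  have := h2 w hw
  linarith

theorem Ctx.fact1F {i : ℕ} {w : ι} (hw : w ∈ N (vadj p P) (TT m e i)) :
    0 ≤ ori (p (e (m + 1))) (p (e 0)) (p w) := by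
  have hm := h.m1
  apply h.no_beyond (am := e m) (a := e (m + 1)) (b := e 0) (bp := e 1) (h.eK _ le_rfl)
    (h.eK _ (by omega)) (h.eK _ (by omega)) (h.eK _ (by omega)) (h.hE m le_rfl) h.hF
    (h.hE 0 (by omega))
  · have := ori_rot (p (e 0)) (p (e m)) (p (e (m + 1)))
    rw [this]
    exact h.cvx 0 m (m + 1) (by omega) (by omega) le_rfl
  · have := ori_rot (p (e (m + 1))) (p (e 0)) (p (e 1))
    rw [← this]
    exact h.cvx 0 1 (m + 1) (by omega) (by omega) le_rfl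
  · exact hw _ (TT_m _ _ _)
  · exact hw _ (TT_m1 _ _ _)
  · exact hw _ (TT_0 _ _ _)
  · exact hw _ (TT_1 _ _ _)

theorem Ctx.fact1E {i : ℕ} (hi : i ≤ m) {w : ι} (hw : w ∈ N (vadj p P) (TT m e i)) :
    0 ≤ ori (p (e i)) (p (e (i + 1))) (p w) := by
  have hm := h.m1
  -- the previous vertex
  obtain ⟨am, ham, ham1, ham2, ham3⟩ : ∃ am, am ∈ TT m e i ∧ am ∈ K ∧
      (∀ k ∈ K, 0 ≤ ori (p am) (p (e i)) (p k)) ∧
      0 < ori (p am) (p (e i)) (p (e (i + 1))) := by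
    rcases Nat.eq_zero_or_pos i with rfl | h0
    · refine ⟨e (m + 1), TT_m1 _ _ _, h.eK _ le_rfl, h.hF, ?_⟩
      have := ori_rot (p (e (m + 1))) (p (e 0)) (p (e 1))
      rw [← this]
      exact h.cvx 0 1 (m + 1) (by omega) (by omega) le_rfl
    · obtain ⟨j, rfl⟩ : ∃ j, i = j + 1 := ⟨i - 1, by omega⟩
      refine ⟨e j, TT_p _ _ _, h.eK _ (by omega), h.hE j (by omega), ?_⟩
      exact h.cvx _ _ _ (by omega) (by omega) (by omega)
  obtain ⟨bp, hbp, hbp1, hbp2, hbp3⟩ : ∃ bp, bp ∈ TT m e i ∧ bp ∈ K ∧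
      (∀ k ∈ K, 0 ≤ ori (p (e (i + 1))) (p bp) (p k)) ∧
      0 < ori (p (e i)) (p (e (i + 1))) (p bp) := by
    rcases hi.lt_or_eq with h0 | rfl
    · refine ⟨e (i + 2), ?_, h.eK _ (by omega), h.hE (i + 1) (by omega), ?_⟩
      · have := TT_q m e i
        rwa [show min (i + 2) (m + 1) = i + 2 by omega] at this
      · exact h.cvx _ _ _ (by omega) (by omega) (by omega)
    · refine ⟨e 0, TT_0 _ _ _, h.eK _ (by omega), h.hF, ?_⟩
      have := ori_rot (p (e 0)) (p (e i)) (p (e (i + 1)))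
      rw [this]
      exact h.cvx _ _ _ (by omega) (by omega) (by omega)
  exact h.no_beyond (h.eK _ (by omega)) (h.eK _ (by omega)) ham1 hbp1 ham2 (h.hE i hi) hbp2 ham3
    hbp3 (hw _ ham) (hw _ (TT_i _ _ _)) (hw _ (TT_s _ _ _)) (hw _ hbp)

/-- the end of the chord on the edge `i` -/
noncomputable def Mi (p : ι → Pt) (e : ℕ → ι) (i : ℕ) : Pt := mid (p (e i)) (p (e (i + 1)))

omit h in
/-- the other end of the chord -/
noncomputable def Mf (p : ι → Pt) (e : ℕ → ι) (m : ℕ) : Pt := mid (p (e (m + 1))) (p (e 0))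

theorem Ctx.posMf {i : ℕ} (hi : i ≤ m) : 0 < ori (p (e i)) (p (e (i + 1))) (Mf p e m) := by
  have hm := h.m1
  have h1 := ori_mid (p (e i)) (p (e (i + 1))) (p (e (m + 1))) (p (e 0))
  have h2 := ori_rot (p (e 0)) (p (e i)) (p (e (i + 1)))
  have h3 := h.weak (i := 0) (j := i) (l := i + 1) (by omega) (by omega) (by omega)
  have h4 := h.weak (i := i) (j := i + 1) (l := m + 1) (by omega) (by omega) (by omega)
  unfold Mf
  rcases hi.lt_or_eq with h0 | rfl
  · have := h.cvx i (i + 1) (m + 1) (by omega) (by omega) le_rfl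
    linarith
  · have := h.cvx 0 i (i + 1) (by omega) (by omega) le_rfl
    linarith

theorem Ctx.posMi {i : ℕ} (hi : i ≤ m) : 0 < ori (p (e (m + 1))) (p (e 0)) (Mi p e i) := by
  have hm := h.m1
  have h1 := ori_mid (p (e (m + 1))) (p (e 0)) (p (e i)) (p (e (i + 1)))
  have h2 := ori_rot (p (e (m + 1))) (p (e 0)) (p (e i))
  have h2' := ori_rot (p (e (m + 1))) (p (e 0)) (p (e (i + 1)))
  have h3 := h.weak (i := 0) (j := i) (l := m + 1) (by omega) (by omega) (by omega)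
  have h4 := h.weak (i := 0) (j := i + 1) (l := m + 1) (by omega) (by omega) (by omega)
  unfold Mi
  rcases Nat.eq_zero_or_pos i with rfl | h0
  · have := h.cvx 0 1 (m + 1) (by omega) (by omega) le_rfl
    simp only [zero_add] at *
    linarith
  · have := h.cvx 0 i (m + 1) (by omega) (by omega) le_rfl
    linarith

omit h in
theorem ori4 (i j : ℕ) : 4 * ori (Mi p e i) (Mf p e m) (p (e j)) =
    ori (p (e i)) (p (e (m + 1))) (p (e j)) + ori (p (e i)) (p (e 0)) (p (e j)) +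
    ori (p (e (i + 1))) (p (e (m + 1))) (p (e j)) + ori (p (e (i + 1))) (p (e 0)) (p (e j)) :=
  ori_mid_mid _ _ _ _ _

theorem Ctx.side_pos {i j : ℕ} (hi : i ≤ m) (hj : j ≤ i) :
    0 < ori (Mi p e i) (Mf p e m) (p (e j)) := by
  have hm := h.m1
  have h0 := ori4 (p := p) (e := e) (m := m) i j
  have r1 := ori_rot (p (e j)) (p (e i)) (p (e (m + 1)))
  have r2 := ori_rot (p (e i)) (p (e 0)) (p (e j))
  have r3 := ori_rot (p (e j)) (p (e (i + 1))) (p (e (m + 1)))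
  have r4 := ori_rot (p (e (i + 1))) (p (e 0)) (p (e j))
  have w1 := h.weak (i := j) (j := i) (l := m + 1) hj (by omega) le_rfl
  have w2 := h.weak (i := 0) (j := j) (l := i) (by omega) hj (by omega)
  have w3 := h.weak (i := j) (j := i + 1) (l := m + 1) (by omega) (by omega) le_rfl
  have w4 := h.weak (i := 0) (j := j) (l := i + 1) (by omega) (by omega) (by omega)
  rcases Nat.eq_zero_or_pos j with hj0 | hj0
  · rcases Nat.eq_zero_or_pos i with hi0 | hi0
    · have s := h.cvx j (i + 1) (m + 1) (by omega) (by omega) le_rfl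
      linarith
    · have s := h.cvx j i (m + 1) (by omega) (by omega) le_rfl
      linarith
  · have s := h.cvx 0 j (i + 1) (by omega) (by omega) (by omega)
    linarith

end

end TH691.VC
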